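import Mathlib

/-! Seeds, mutation, positivity and denominators. -/

namespace Pool.Agent.H.MP_03aa11_co

open Finset

section Defs
variable {V F : Type} [Fintype V] [DecidableEq V] [Field F]

/-- Matrix mutation in direction `j`. -/
def mutB (B : V → V → ℤ) (j : V) : V → V → ℤ := fun u v =>
  if u = j ∨ v = j then -B u v
  else B u v + max (B u j) 0 * max (B j v) 0 - max (-B u j) 0 * max (-B j v) 0

/-- The exchange relation in direction `j`. -/
def mutX (x : V → F) (B : V → V → ℤ) (j : V) : V → F :=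
  Function.update x j ((∏ u, x u ^ (B u j).toNat + ∏ u, x u ^ (-B u j).toNat) / x j)

/-- Seed mutation. -/
def mutate (s : (V → F) × (V → V → ℤ)) (j : V) : (V → F) × (V → V → ℤ) :=
  (mutX s.1 s.2 j, mutB s.2 j)

/-- The seed reached after mutating along the list `p`. -/
def run (s : (V → F) × (V → V → ℤ)) (p : List V) : (V → F) × (V → V → ℤ) :=
  p.foldl mutate s

end Defs

section Basic
variable {V F : Type} [Fintype V] [DecidableEq V] [Field F]

def Skew (B : V → V → ℤ) : Prop := ∀ u v, B u v = -B v u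

omit [Fintype V] [DecidableEq V] in
lemma Skew.diag {B : V → V → ℤ} (h : Skew B) (j : V) : B j j = 0 := by
  have := h j j; omega

omit [Fintype V] in
lemma Skew.mutB {B : V → V → ℤ} (h : Skew B) (j : V) : Skew (mutB B j) := by
  intro u v
  unfold MP_03aa11_co.mutB
  by_cases h1 : u = j ∨ v = j
  · rw [if_pos h1, if_pos h1.symm, h u v]
  · rw [if_neg h1, if_neg (fun h2 => h1 h2.symm), h u v, h u j, h j v]
    simp only [neg_neg]; ring

omit [Fintype V] in
lemma mutB_col (B : V → V → ℤ) (j u : V) : mutB B j u j = -B u j := by simp [mutB]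

omit [Fintype V] in
lemma mutB_row (B : V → V → ℤ) (j u : V) : mutB B j j u = -B j u := by simp [mutB]

omit [Fintype V] in
lemma mutB_mutB (B : V → V → ℤ) (j : V) : mutB (mutB B j) j = B := by
  funext u v
  by_cases h1 : u = j ∨ v = j
  · simp [mutB, h1]
  · have e : mutB (mutB B j) j u v = mutB B j u v + max (mutB B j u j) 0 * max (mutB B j j v) 0
        - max (-mutB B j u j) 0 * max (-mutB B j j v) 0 := by
      conv_lhs => unfold mutB
      rw [if_neg h1]; rfl
    rw [e, mutB_col, mutB_row]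
    simp only [mutB, if_neg h1, neg_neg]; ring

omit [Fintype V] in
lemma mutB_neg (B : V → V → ℤ) (j : V) : mutB (-B) j = -mutB B j := by
  funext u v
  simp only [mutB, Pi.neg_apply, neg_neg]
  split_ifs <;> ring

lemma mutX_neg (x : V → F) (B : V → V → ℤ) (j : V) : mutX x (-B) j = mutX x B j := by
  simp only [mutX, Pi.neg_apply, neg_neg]; rw [add_comm]

lemma run_cons (s : (V → F) × (V → V → ℤ)) (j : V) (p : List V) :
    run s (j :: p) = run (mutate s j) p := rfl

lemma run_concat (s : (V → F) × (V → V → ℤ)) (j : V) (p : List V) :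
    run s (p ++ [j]) = mutate (run s p) j := by simp [run]

lemma run_snd (x : V → F) (B : V → V → ℤ) (p : List V) :
    (run (x, B) p).2 = p.foldl mutB B := by
  induction p generalizing x B with
  | nil => rfl
  | cons j p ih => rw [run_cons]; exact ih _ _

/-- A positive cone of a field. -/
structure PosSet (S : Set F) : Prop where
  zero : (0 : F) ∉ S
  one : (1 : F) ∈ S
  add : ∀ a ∈ S, ∀ b ∈ S, a + b ∈ S
  mul : ∀ a ∈ S, ∀ b ∈ S, a * b ∈ S
  inv : ∀ a ∈ S, a⁻¹ ∈ S

lemma PosSet.ne {S : Set F} (h : PosSet S) {a : F} (ha : a ∈ S) : a ≠ 0 :=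
  fun e => h.zero (e ▸ ha)

lemma PosSet.pow {S : Set F} (h : PosSet S) {a : F} (ha : a ∈ S) (n : ℕ) : a ^ n ∈ S := by
  induction n with
  | zero => simpa using h.one
  | succ n ih => rw [pow_succ]; exact h.mul _ ih _ ha

omit [DecidableEq V] in
lemma PosSet.prod {S : Set F} (h : PosSet S) {x : V → F} (hx : ∀ v, x v ∈ S) (e : V → ℕ) :
    ∏ u, x u ^ e u ∈ S :=
  Finset.prod_induction _ (· ∈ S) (fun a b ha hb => h.mul a ha b hb) h.one
    (fun u _ => h.pow (hx u) _)

lemma PosSet.mutX {S : Set F} (h : PosSet S) {x : V → F} (hx : ∀ v, x v ∈ S) (B : V → V → ℤ)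
    (j : V) : ∀ v, mutX x B j v ∈ S := by
  intro v
  unfold MP_03aa11_co.mutX
  by_cases hv : v = j
  · subst hv
    rw [Function.update_self, div_eq_mul_inv]
    exact h.mul _ (h.add _ (h.prod hx _) _ (h.prod hx _)) _ (h.inv _ (hx v))
  · rw [Function.update_of_ne hv]; exact hx v

lemma PosSet.run {S : Set F} (h : PosSet S) (p : List V) {s : (V → F) × (V → V → ℤ)}
    (hx : ∀ v, s.1 v ∈ S) : ∀ v, (run s p).1 v ∈ S := by
  induction p generalizing s with
  | nil => exact hx
  | cons j p ih => rw [run_cons]; exact ih (h.mutX hx _ _)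

lemma prod_update_pow {M : Type} [CommMonoid M] (x : V → M) (j : V) (a : M) (e : V → ℕ)
    (he : e j = 0) : ∏ u, Function.update x j a u ^ e u = ∏ u, x u ^ e u := by
  refine Finset.prod_congr rfl fun u _ => ?_
  by_cases hu : u = j
  · subst hu; simp [he]
  · rw [Function.update_of_ne hu]

lemma mutate_mutate {S : Set F} (h : PosSet S) {x : V → F} (hx : ∀ v, x v ∈ S) {B : V → V → ℤ}
    (hB : Skew B) (j : V) : mutate (mutate (x, B) j) j = (x, B) := by
  simp only [mutate, mutB_mutB, Prod.mk.injEq, and_true]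
  funext v
  by_cases hv : v = j
  · subst hv
    have h0 : x v ≠ 0 := h.ne (hx v)
    have h1 : (∏ u, x u ^ (B u v).toNat + ∏ u, x u ^ (-B u v).toNat) ≠ 0 :=
      h.ne (h.add _ (h.prod hx _) _ (h.prod hx _))
    conv_lhs => unfold mutX
    rw [Function.update_self, Function.update_self,
      prod_update_pow _ _ _ _ (by simp [mutB_col, hB.diag]),
      prod_update_pow _ _ _ _ (by simp [mutB_col, hB.diag])]
    simp only [mutB_col, neg_neg]
    rw [add_comm (∏ u, x u ^ (-B u v).toNat)]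
    field_simp
  · simp [mutX, Function.update_of_ne hv]

end Basic

section Den
variable {R K : Type} [CommRing R] [IsDomain R] [Field K] [Algebra R K] [IsFractionRing R K]

/-- The positive cone attached to a ring map to the integers. -/
def posOf (K : Type) [Field K] [Algebra R K] (ε : R →+* ℤ) : Set K :=
  {z | ∃ a b : R, 0 < ε a ∧ 0 < ε b ∧ z = algebraMap R K a / algebraMap R K b}

omit [IsDomain R] in
lemma alg_ne_of_pos (ε : R →+* ℤ) {a : R} (ha : 0 < ε a) : algebraMap R K a ≠ 0 := by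
  intro h
  have : a = 0 := IsFractionRing.injective R K (by simpa using h)
  simp [this] at ha

omit [IsDomain R] in
lemma posOf_pos (ε : R →+* ℤ) : PosSet (posOf K ε) where
  zero := by
    rintro ⟨a, b, ha, hb, h⟩
    exact div_ne_zero (alg_ne_of_pos (K := K) ε ha) (alg_ne_of_pos ε hb) h.symm
  one := ⟨1, 1, by simp, by simp, by simp⟩
  add := by
    rintro _ ⟨a, b, ha, hb, rfl⟩ _ ⟨c, d, hc, hd, rfl⟩
    refine ⟨a * d + b * c, b * d, by simp only [map_add, map_mul]; positivity,
      by simp only [map_mul]; positivity, ?_⟩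
    rw [div_add_div _ _ (alg_ne_of_pos ε hb) (alg_ne_of_pos ε hd)]; simp
  mul := by
    rintro _ ⟨a, b, ha, hb, rfl⟩ _ ⟨c, d, hc, hd, rfl⟩
    refine ⟨a * c, b * d, by simp only [map_mul]; positivity,
      by simp only [map_mul]; positivity, ?_⟩
    rw [div_mul_div_comm]; simp
  inv := by
    rintro _ ⟨a, b, ha, hb, rfl⟩
    exact ⟨b, a, hb, ha, by rw [inv_div]⟩

omit [IsDomain R] [IsFractionRing R K] in
lemma mem_posOf (ε : R →+* ℤ) {a : R} (ha : 0 < ε a) : algebraMap R K a ∈ posOf K ε :=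
  ⟨a, 1, ha, by simp, by simp⟩

/-- Elements whose denominator is a power of `G`. -/
def Den (K : Type) [Field K] [Algebra R K] (G : R) : Subring K where
  carrier := {z | ∃ N : ℕ, ∃ f : R, z * algebraMap R K G ^ N = algebraMap R K f}
  zero_mem' := ⟨0, 0, by simp⟩
  one_mem' := ⟨0, 1, by simp⟩
  add_mem' := by
    rintro a b ⟨N, f, hf⟩ ⟨M, g, hg⟩
    refine ⟨N + M, f * G ^ M + g * G ^ N, ?_⟩
    simp only [map_add, map_mul, map_pow, ← hf, ← hg]; ring
  mul_mem' := by
    rintro a b ⟨N, f, hf⟩ ⟨M, g, hg⟩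
    refine ⟨N + M, f * g, ?_⟩
    simp only [map_mul, ← hf, ← hg]; ring
  neg_mem' := by
    rintro a ⟨N, f, hf⟩
    exact ⟨N, -f, by simp [← hf]⟩

omit [IsDomain R] [IsFractionRing R K] in
lemma alg_mem_Den (G a : R) : algebraMap R K a ∈ Den K G := ⟨0, a, by simp⟩

omit [IsDomain R] [IsFractionRing R K] in
lemma inv_mem_Den {G a : R} (h : a ∣ G) (ha : algebraMap R K a ≠ 0) :
    (algebraMap R K a)⁻¹ ∈ Den K G := by
  obtain ⟨c, rfl⟩ := h
  exact ⟨1, c, by simp only [map_mul, pow_one]; field_simp⟩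

lemma Den_cancel {P H G : R} (hP : Prime P) (hG : ¬ P ∣ G) {z : K}
    (h1 : z ∈ Den K (P * H)) (h2 : z ∈ Den K G) : z ∈ Den K H := by
  obtain ⟨N, f, hf⟩ := h1
  obtain ⟨M, g, hg⟩ := h2
  have e : G ^ M * f = P ^ N * (g * H ^ N) := by
    apply IsFractionRing.injective R K
    simp only [map_mul, map_pow, ← hf, ← hg]; ring
  have hd : P ^ N ∣ f := hP.pow_dvd_of_dvd_mul_left N (a := G ^ M)
    (fun h => hG (hP.dvd_of_dvd_pow h)) ⟨_, e⟩
  obtain ⟨c, rfl⟩ := hd
  refine ⟨N, c, ?_⟩
  have hP0 : algebraMap R K P ≠ 0 := fun h =>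
    hP.ne_zero (IsFractionRing.injective R K (by simpa using h))
  apply mul_left_cancel₀ (pow_ne_zero N hP0)
  simp only [map_mul, map_pow] at hf
  rw [← hf]; ring

omit [IsDomain R] [IsFractionRing R K] in
lemma Den_one {z : K} (h : z ∈ Den K (1 : R)) : ∃ f : R, algebraMap R K f = z := by
  obtain ⟨N, f, hf⟩ := h
  exact ⟨f, by simpa using hf.symm⟩

/-- The starfish argument. -/
lemma starfish {V : Type} [Fintype V] [DecidableEq V] (x : V → R) (s : Finset V) {z : K}
    (h0 : z ∈ Den K (∏ v, x v))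
    (h : ∀ k ∈ s, Prime (x k) ∧ ∃ G : R, ¬ x k ∣ G ∧ z ∈ Den K G) :
    z ∈ Den K (∏ v ∈ sᶜ, x v) := by
  induction s using Finset.induction_on with
  | empty => simpa using h0
  | insert k s hk ih =>
    have h1 := ih fun j hj => h j (Finset.mem_insert_of_mem hj)
    obtain ⟨hp, G, hG, hz⟩ := h k (Finset.mem_insert_self _ _)
    have e : ∏ v ∈ sᶜ, x v = x k * ∏ v ∈ (insert k s)ᶜ, x v := by
      rw [Finset.compl_insert, Finset.mul_prod_erase _ _ (by simpa using hk)]
    rw [e] at h1
    exact Den_cancel hp hG h1 hz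

end Den

end Pool.Agent.H.MP_03aa11_co
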