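import Pool.Agent.H.MP_03aa11_co.A

/-! The Laurent ring and the exchange binomials. -/

namespace Pool.Agent.H.MP_03aa11_co

open Finset

lemma alg3 {A : Type} [CommRing A] [IsDomain A] (P z Xj Xk M1 M2 N1 N2 Q1 Q2 q : A) (c : ℕ)
    (uXj : IsUnit Xj) (uXk : IsUnit Xk) (uM1 : IsUnit M1) (uN1 : IsUnit N1) (uQ2 : IsUnit Q2)
    (hz : z * Xj = P) (hP : P = M1 + M2 * Xk ^ c) (hq : q * Xk = N1 + z ^ c * N2)
    (hQ : Q1 * M1 = Q2 * N1 ^ c * M2) (pP : Prime P)
    (h0 : c = 0 → ¬ P ∣ N1 + N2) (h1 : c = 1 → ¬ P ∣ N1 * Xj + M1 * N2) :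
    ¬ P ∣ q ∧ ∃ r, r * z = Q1 + q ^ c * Q2 ∧ ¬ P ∣ r := by
  have nu : ∀ a : A, IsUnit a → ¬ P ∣ a := fun a ha h => pP.not_unit (isUnit_of_dvd_unit h ha)
  have hPz : P ∣ z := by
    obtain ⟨u, rfl⟩ := uXj
    exact ⟨↑u⁻¹, by rw [← hz, mul_assoc]; simp⟩
  obtain ⟨T, hT⟩ : ∃ T, (N1 + z ^ c * N2) ^ c - N1 ^ c = z ^ c * N2 * T := by
    obtain ⟨T, hT⟩ := sub_dvd_pow_sub_pow (N1 + z ^ c * N2) N1 c
    exact ⟨T, by rw [hT]; ring⟩
  have key : (Xk ^ c * M1) * (Q1 + q ^ c * Q2)
      = Q2 * (z * N1 ^ c * Xj + M1 * (z ^ c * N2 * T)) := by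
    have e1 : q ^ c * Xk ^ c = N1 ^ c + z ^ c * N2 * T := by
      rw [← mul_pow, hq, ← hT]; ring
    have e2 : M2 * Xk ^ c = z * Xj - M1 := by rw [hz, hP]; ring
    calc (Xk ^ c * M1) * (Q1 + q ^ c * Q2)
        = Xk ^ c * (Q1 * M1) + M1 * Q2 * (q ^ c * Xk ^ c) := by ring
      _ = Q2 * N1 ^ c * (M2 * Xk ^ c) + M1 * Q2 * (N1 ^ c + z ^ c * N2 * T) := by
        rw [hQ, e1]; ring
      _ = _ := by rw [e2]; ring
  obtain ⟨u, hu⟩ : IsUnit (Xk ^ c * M1) := (uXk.pow c).mul uM1
  have fin : ∀ Y : A, ¬ P ∣ Y → z * N1 ^ c * Xj + M1 * (z ^ c * N2 * T) = z * Y →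
      ∃ r, r * z = Q1 + q ^ c * Q2 ∧ ¬ P ∣ r := by
    intro Y hY e
    refine ⟨↑u⁻¹ * Q2 * Y, ?_, ?_⟩
    · apply (Units.mul_right_inj u).mp
      rw [hu, key, e, ← hu]
      have : (u : A) * ↑u⁻¹ = 1 := by simp
      linear_combination (Q2 * Y * z) * this
    · intro h
      rcases pP.dvd_or_dvd h with h | h
      · exact nu _ ((Units.isUnit _).mul uQ2) h
      · exact hY h
  rcases Nat.eq_zero_or_pos c with rfl | hc
  · refine ⟨fun h => h0 rfl ?_, ?_⟩
    · have := h.mul_right Xk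
      rw [hq] at this; simpa using this
    · have hT0 : N2 * T = 0 := by simpa using hT.symm
      refine fin Xj (nu _ uXj) ?_
      simp only [pow_zero, one_mul, mul_one, hT0]; ring
  · refine ⟨fun h => nu _ uN1 ?_, ?_⟩
    · have h2 := h.mul_right Xk
      rw [hq] at h2
      exact (dvd_add_left ((dvd_pow hPz hc.ne').mul_right N2)).mp h2
    · obtain ⟨d, rfl⟩ : ∃ d, c = d + 1 := ⟨c - 1, by omega⟩
      rcases Nat.eq_zero_or_pos d with rfl | hd
      · refine fin _ (h1 rfl) ?_
        have : z * N2 * T = z * N2 := by simpa using hT.symm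
        simp only [zero_add, pow_one]; rw [this]; ring
      · refine fin (N1 ^ (d + 1) * Xj + z ^ d * (M1 * N2 * T)) (fun h => ?_) (by ring)
        exact nu _ ((uN1.pow _).mul uXj)
          ((dvd_add_left ((dvd_pow hPz hd.ne').mul_right _)).mp h)

variable {V : Type} [Fintype V] [DecidableEq V]

abbrev LA (V : Type) := AddMonoidAlgebra ℤ (V → ℤ)
abbrev LK (V : Type) := FractionRing (LA V)

noncomputable def mono (m : V → ℤ) : LA V := AddMonoidAlgebra.single m 1

omit [Fintype V] [DecidableEq V] in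
lemma mono_add (a b : V → ℤ) : mono (a + b) = mono a * mono b := by
  simp [mono, AddMonoidAlgebra.single_mul_single]

omit [Fintype V] [DecidableEq V] in
lemma mono_zero : mono (0 : V → ℤ) = 1 := rfl

omit [Fintype V] [DecidableEq V] in
lemma mono_neg (a : V → ℤ) : mono a * mono (-a) = 1 := by
  rw [← mono_add, add_neg_cancel, mono_zero]

omit [Fintype V] [DecidableEq V] in
lemma mono_unit (a : V → ℤ) : IsUnit (mono a) := IsUnit.of_mul_eq_one _ (mono_neg a)

omit [Fintype V] [DecidableEq V] in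
lemma mono_pow (a : V → ℤ) (n : ℕ) : mono a ^ n = mono ((n : ℤ) • a) := by
  induction n with
  | zero => simp [mono_zero]
  | succ n ih => rw [pow_succ, ih, ← mono_add]; congr 1; push_cast; rw [add_smul, one_smul]

omit [Fintype V] [DecidableEq V] in
lemma mono_sum {ι : Type} (s : Finset ι) (f : ι → V → ℤ) :
    ∏ i ∈ s, mono (f i) = mono (∑ i ∈ s, f i) := by
  classical
  induction s using Finset.induction_on with
  | empty => simp [mono_zero]
  | insert i s hi ih => rw [Finset.prod_insert hi, Finset.sum_insert hi, mono_add, ih]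

/-- Ring maps out of the Laurent ring. -/
noncomputable def lhom {S : Type} [CommRing S] (f : (V → ℤ) → S) (h0 : f 0 = 1)
    (ha : ∀ a b, f (a + b) = f a * f b) : LA V →+* S :=
  (AddMonoidAlgebra.lift ℤ S (V → ℤ)
    { toFun := fun m => f m.toAdd, map_one' := h0, map_mul' := fun a b => ha _ _ }).toRingHom

omit [Fintype V] [DecidableEq V] in
lemma lhom_mono {S : Type} [CommRing S] (f : (V → ℤ) → S) (h0 : f 0 = 1)
    (ha : ∀ a b, f (a + b) = f a * f b) (m : V → ℤ) : lhom f h0 ha (mono m) = f m := by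
  simp [lhom, mono]

omit [Fintype V] [DecidableEq V] in
lemma LA_ind {p : LA V → Prop} (hm : ∀ m, p (mono m)) (ha : ∀ a b, p a → p b → p (a + b))
    (hs : ∀ (r : ℤ) a, p a → p (r • a)) (x : LA V) : p x :=
  AddMonoidAlgebra.induction_on x (fun m => hm m) ha hs

/-- The sign character. -/
noncomputable def chi (c : (V → ℤ) →+ ℤ) : LA V →+* ℤ :=
  lhom (fun m => ((c m).negOnePow : ℤ)) (by simp) (by intro a b; simp [Int.negOnePow_add])

omit [Fintype V] [DecidableEq V] in
lemma not_dvd_of_chi (c : (V → ℤ) →+ ℤ) {a b a' b' : V → ℤ} (h : c a = c b + 1)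
    (h' : c a' = c b') : ¬ mono a + mono b ∣ mono a' + mono b' := by
  intro hd
  have h1 := map_dvd (chi c) hd
  simp only [chi, map_add, lhom_mono, h, h', Int.negOnePow_succ] at h1
  rcases Int.units_eq_one_or (c b').negOnePow with e | e <;> simp [e] at h1

omit [Fintype V] [DecidableEq V] in
lemma prime_binom (c : (V → ℤ) →+ ℤ) {a b : V → ℤ} (h : c a = c b + 1) :
    Prime (mono a + mono b) := by
  obtain ⟨d, hd⟩ : ∃ d, d = a - b := ⟨_, rfl⟩
  let ψ : LA V →+* LA V :=
    lhom (fun m => (((c m).negOnePow : ℤ) : LA V) * mono (m - c m • d))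
      (by simp [mono_zero]) (by
        intro x y
        simp only [map_add, Int.negOnePow_add, Units.val_mul, Int.cast_mul]
        rw [show x + y - (c x + c y) • d = (x - c x • d) + (y - c y • d) by
          rw [add_smul]; abel, mono_add]
        ring)
  have hψ : ∀ m, ψ (mono m) = (((c m).negOnePow : ℤ) : LA V) * mono (m - c m • d) :=
    fun m => lhom_mono _ _ _ m
  have h1 : ψ (mono a + mono b) = 0 := by
    rw [map_add, hψ, hψ, h, Int.negOnePow_succ,
      show a - (c b + 1) • d = b - c b • d by rw [add_smul, one_smul, hd]; abel]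
    simp
  have hd1 : mono a + mono b ∣ mono d + 1 :=
    ⟨mono (-b), by rw [add_mul, mono_neg, ← mono_add, hd, sub_eq_add_neg]⟩
  have h2 : ∀ t : ℤ, mono a + mono b ∣ mono (t • d) - ((t.negOnePow : ℤ) : LA V) := by
    intro t
    induction t using Int.induction_on with
    | zero => simp [mono_zero]
    | succ t ih =>
      have : mono (((t : ℤ) + 1) • d) - ((((t : ℤ) + 1).negOnePow : ℤ) : LA V)
          = mono d * (mono ((t : ℤ) • d) - (((t : ℤ).negOnePow : ℤ) : LA V))
            + (((t : ℤ).negOnePow : ℤ) : LA V) * (mono d + 1) := by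
        rw [add_smul, one_smul, mono_add, Int.negOnePow_succ]; push_cast; ring
      rw [this]
      exact dvd_add (ih.mul_left _) (hd1.mul_left _)
    | pred t ih =>
      have : mono ((-(t : ℤ) - 1) • d) - (((-(t : ℤ) - 1).negOnePow : ℤ) : LA V)
          = mono (-d) * (mono ((-(t : ℤ)) • d) - (((-(t : ℤ)).negOnePow : ℤ) : LA V))
            + (((-(t : ℤ)).negOnePow : ℤ) : LA V) * mono (-d) * (mono d + 1) := by
        have e := mono_neg d
        rw [sub_smul, one_smul, sub_eq_add_neg (-(t : ℤ) • d), mono_add, Int.negOnePow_sub,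
          Int.negOnePow_one]
        push_cast
        linear_combination (-(((-(t : ℤ)).negOnePow : ℤ) : LA V)) * e
      rw [this]
      exact dvd_add (ih.mul_left _) (hd1.mul_left _)
  have h3 : ∀ x, mono a + mono b ∣ x - ψ x := by
    intro x
    induction x using LA_ind with
    | hm m =>
      have : mono m - ψ (mono m)
          = mono (m - c m • d) * (mono (c m • d) - (((c m).negOnePow : ℤ) : LA V)) := by
        rw [hψ, mul_sub, ← mono_add, sub_add_cancel]; ring
      rw [this]; exact (h2 _).mul_left _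
    | ha x y hx hy =>
      rw [map_add, show x + y - (ψ x + ψ y) = (x - ψ x) + (y - ψ y) by ring]
      exact dvd_add hx hy
    | hs r x hx =>
      rw [map_zsmul, ← smul_sub, zsmul_eq_mul]; exact hx.mul_left _
  have h4 : ∀ x, mono a + mono b ∣ x ↔ ψ x = 0 := by
    intro x
    constructor
    · rintro ⟨y, rfl⟩; rw [map_mul, h1, zero_mul]
    · intro hx; simpa [hx] using h3 x
  refine ⟨?_, ?_, ?_⟩
  · intro h0
    have := congrArg (lhom (fun _ : V → ℤ => (1 : ℤ)) rfl (by simp)) h0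
    simp [lhom_mono] at this
  · intro hu
    have := (h4 1).mp hu.dvd
    simp at this
  · intro x y hxy
    rw [h4] at hxy
    rw [h4, h4]
    rwa [map_mul, mul_eq_zero] at hxy

end Pool.Agent.H.MP_03aa11_co
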