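import Pool.Agent.H.MP_03aa11_co.B

/-! The Laurent phenomenon for exchange matrices with unimodular columns. -/

namespace Pool.Agent.H.MP_03aa11_co

open Finset

variable {V : Type} [Fintype V] [DecidableEq V]

noncomputable def gA (v : V) : LA V := mono (Pi.single v 1)
noncomputable def gen (v : V) : LK V := algebraMap (LA V) (LK V) (gA v)
noncomputable def eps : LA V →+* ℤ := lhom (fun _ : V → ℤ => (1 : ℤ)) rfl (by simp)

omit [Fintype V] in
lemma gen_pos (v : V) : gen v ∈ posOf (LK V) (eps (V := V)) :=
  mem_posOf _ (by simp [eps, gA, lhom_mono])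

def Inv (mt : V → Prop) (B : V → V → ℤ) : Prop :=
  ∀ t : V → ℤ, ∃ c : (V → ℤ) →+ ℤ, ∀ v, mt v → c (fun u => B u v) = t v

omit [Fintype V] [DecidableEq V] in
lemma Inv.neg {mt : V → Prop} {B : V → V → ℤ} (h : Inv mt B) : Inv mt (-B) := by
  intro t
  obtain ⟨c, hc⟩ := h t
  refine ⟨-c, fun v hv => ?_⟩
  have : (fun u => (-B) u v) = -(fun u => B u v) := rfl
  rw [this]; simp [hc v hv]

omit [Fintype V] in
lemma Inv.mutB {mt : V → Prop} {B : V → V → ℤ} (h : Inv mt B) (hB : Skew B) {j : V}
    (hj : mt j) : Inv mt (mutB B j) := by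
  intro t
  obtain ⟨c, hc⟩ := h (fun v => if v = j then -t j else t v + max (B j v) 0 * t j)
  let E : (V → ℤ) →+ (V → ℤ) :=
    { toFun := fun m u => if u = j then -m j else m u + max (-B u j) 0 * m j
      map_zero' := by funext u; simp
      map_add' := by
        intro a b; funext u; simp only [Pi.add_apply]; split_ifs <;> ring }
  refine ⟨c.comp E, fun v hv => ?_⟩
  have hcj := hc j hj
  rw [if_pos rfl] at hcj
  by_cases hvj : v = j
  · subst hvj
    have : E (fun u => MP_03aa11_co.mutB B v u v) = -(fun u => B u v) := by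
      funext u
      simp only [E, AddMonoidHom.coe_mk, ZeroHom.coe_mk, mutB_col, hB.diag, Pi.neg_apply]
      split_ifs with h1
      · simp [h1, hB.diag]
      · simp
    rw [AddMonoidHom.comp_apply, this, map_neg, hcj, neg_neg]
  · have hcv := hc v hv
    rw [if_neg hvj] at hcv
    have : E (fun u => MP_03aa11_co.mutB B j u v)
        = (fun u => B u v) + max (B j v) 0 • (fun u => B u j) := by
      funext u
      simp only [E, AddMonoidHom.coe_mk, ZeroHom.coe_mk, mutB_row, Pi.add_apply, Pi.smul_apply,
        smul_eq_mul]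
      split_ifs with h1
      · simp [h1, hB.diag]
      · simp only [MP_03aa11_co.mutB, h1, hvj, or_self, if_false]
        rcases le_total 0 (B u j) with h2 | h2 <;> rcases le_total 0 (B j v) with h3 | h3 <;>
          simp [h2, h3, mul_comm]
    rw [AddMonoidHom.comp_apply, this, map_add, map_zsmul, hcv, hcj]
    simp

def Lau (B : V → V → ℤ) (p : List V) : Prop :=
  ∀ v, ∃ L : LA V, algebraMap (LA V) (LK V) L = (run (gen, B) p).1 v

/-- Specialisation of the generic Laurent expansions. -/
lemma spec {F : Type} [Field F] {S : Set F} (hS : PosSet S) {y : V → F} (hy : ∀ v, y v ∈ S)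
    {mt : V → Prop} {B : V → V → ℤ} (p : List V) (hp : ∀ j ∈ p, mt j)
    (h : ∀ q : List V, q.length ≤ p.length → (∀ j ∈ q, mt j) → Lau B q)
    (T : Subring F) (hT : ∀ v, y v ∈ T ∧ (y v)⁻¹ ∈ T) (v : V) : (run (y, B) p).1 v ∈ T := by
  let ev : LA V →+* F := lhom (fun m => ∏ u, y u ^ m u) (by simp) (by
    intro a b
    rw [← Finset.prod_mul_distrib]
    exact Finset.prod_congr rfl fun u _ => zpow_add₀ (hS.ne (hy u)) _ _)
  have hev : ∀ L, ev L ∈ T := by
    intro L
    induction L using LA_ind with
    | hm m =>
      rw [lhom_mono]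
      refine T.prod_mem fun u _ => ?_
      rcases Int.eq_nat_or_neg (m u) with ⟨n, hn | hn⟩
      · rw [hn, zpow_natCast]; exact T.pow_mem (hT u).1 n
      · rw [hn, zpow_neg, zpow_natCast, ← inv_pow]; exact T.pow_mem (hT u).2 n
    | ha a b ha hb => rw [map_add]; exact T.add_mem ha hb
    | hs r a ha => rw [map_zsmul]; exact T.zsmul_mem ha r
  suffices H : ∀ v, ∃ L : LA V, algebraMap (LA V) (LK V) L = (run (gen, B) p).1 v ∧
      ev L = (run (y, B) p).1 v by
    obtain ⟨L, -, hL⟩ := H v
    exact hL ▸ hev L
  clear v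
  induction p using List.reverseRecOn with
  | nil =>
    intro v
    refine ⟨gA v, rfl, ?_⟩
    rw [gA, lhom_mono, Finset.prod_eq_single v]
    · simp [run]
    · intro u _ hu; simp [Pi.single_eq_of_ne hu]
    · simp
  | append_singleton p j ih =>
    have ih' := ih (fun i hi => hp i (by simp [hi])) (fun q hq => h q (by simp; omega))
    choose L hL1 hL2 using ih'
    intro v
    by_cases hv : v = j
    · subst hv
      obtain ⟨L', hL'⟩ := h (p ++ [v]) le_rfl hp v
      refine ⟨L', hL', ?_⟩
      rw [run_concat] at hL' ⊢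
      simp only [mutate, mutX, Function.update_self, run_snd] at hL' ⊢
      have h1 : (run (gen, B) p).1 v ≠ 0 :=
        (posOf_pos _).ne ((posOf_pos (eps (V := V))).run p (s := (gen, B)) gen_pos v)
      have h2 : (run (y, B) p).1 v ≠ 0 := hS.ne (hS.run p (s := (y, B)) hy v)
      have e : L' * L v = ∏ u, L u ^ (p.foldl mutB B u v).toNat
          + ∏ u, L u ^ (-p.foldl mutB B u v).toNat := by
        apply IsFractionRing.injective (LA V) (LK V)
        simp only [map_mul, map_add, map_prod, map_pow, hL1, hL']
        field_simp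
      have e2 := congrArg ev e
      simp only [map_mul, map_add, map_prod, map_pow, hL2] at e2
      rw [eq_div_iff h2, e2]
    · refine ⟨L v, ?_, ?_⟩
      · rw [run_concat]; simp [mutate, mutX, Function.update_of_ne hv, hL1]
      · rw [run_concat]; simp [mutate, mutX, Function.update_of_ne hv, hL2]

noncomputable def exP (B : V → V → ℤ) (j : V) : LA V :=
  mono (fun u => max (B u j) 0) + mono (fun u => max (-B u j) 0)

def off (j k : V) (e : V → ℤ) : V → ℤ := fun u => if u = j ∨ u = k then 0 else e u

lemma prod_off {j k : V} (hjk : j ≠ k) (y : V → LA V) (hy : ∀ u, u ≠ j → u ≠ k → y u = gA u)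
    (e : V → ℤ) :
    ∏ u, y u ^ (e u).toNat
      = y j ^ (e j).toNat * y k ^ (e k).toNat * mono (off j k fun u => max (e u) 0) := by
  rw [← Finset.mul_prod_erase _ _ (Finset.mem_univ j),
    ← Finset.mul_prod_erase _ _ (Finset.mem_erase.mpr ⟨hjk.symm, Finset.mem_univ k⟩), mul_assoc]
  congr 2
  rw [Finset.prod_congr rfl (g := fun u => mono (((e u).toNat : ℤ) • Pi.single u 1)), mono_sum]
  · congr 1
    funext w
    simp only [Finset.sum_apply, Pi.smul_apply, smul_eq_mul, off]
    split_ifs with h
    · refine Finset.sum_eq_zero fun u hu => ?_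
      simp only [Finset.mem_erase] at hu
      rw [Pi.single_eq_of_ne (by rintro rfl; tauto), mul_zero]
    · rw [Finset.sum_eq_single w]
      · simp
      · intro u _ hu; rw [Pi.single_eq_of_ne hu.symm, mul_zero]
      · intro hw; exact absurd (by simp; tauto) hw
  · intro u hu
    simp only [Finset.mem_erase] at hu
    rw [hy u hu.2.1 hu.1, gA, mono_pow]

lemma prod_gA (e : V → ℤ) : ∏ u, gA u ^ (e u).toNat = mono (fun u => max (e u) 0) := by
  rw [Finset.prod_congr rfl (g := fun u => mono (((e u).toNat : ℤ) • Pi.single u 1)), mono_sum]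
  · congr 1
    funext w
    simp only [Finset.sum_apply, Pi.smul_apply, smul_eq_mul]
    rw [Finset.sum_eq_single w]
    · simp
    · intro u _ hu; rw [Pi.single_eq_of_ne hu.symm, mul_zero]
    · simp
  · intro u _
    rw [gA, mono_pow]

lemma mutX_alg (y : V → LA V) (B : V → V → ℤ) (j : V) (r : LA V) (hy : y j ≠ 0)
    (h : r * y j = ∏ u, y u ^ (B u j).toNat + ∏ u, y u ^ (-B u j).toNat) :
    mutX (fun u => algebraMap (LA V) (LK V) (y u)) B j
      = fun u => algebraMap (LA V) (LK V) (Function.update y j r u) := by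
  funext v
  by_cases hv : v = j
  · subst hv
    have h0 : algebraMap (LA V) (LK V) (y v) ≠ 0 := fun e =>
      hy (IsFractionRing.injective (LA V) (LK V) (by simpa using e))
    have := congrArg (algebraMap (LA V) (LK V)) h
    simp only [map_mul, map_add, map_prod, map_pow] at this
    simp only [mutX, Function.update_self]
    rw [div_eq_iff h0, this]
  · simp [mutX, Function.update_of_ne hv]

noncomputable def zA (B : V → V → ℤ) (j : V) : LA V := exP B j * mono (-Pi.single j 1)

omit [Fintype V] in
lemma zA_mul (B : V → V → ℤ) (j : V) : zA B j * gA j = exP B j := by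
  rw [zA, gA, mul_assoc, mul_comm (mono _), mono_neg, mul_one]

lemma mutX_gen (B : V → V → ℤ) (j : V) :
    mutX gen B j = fun u => algebraMap (LA V) (LK V) (Function.update gA j (zA B j) u) :=
  mutX_alg gA B j _ (mono_unit _).ne_zero (by rw [zA_mul, prod_gA, prod_gA]; rfl)

omit [Fintype V] in
lemma exP_data {mt : V → Prop} {B : V → V → ℤ} (hI : Inv mt B) {j k : V} (hj : mt j) (hk : mt k)
    (hjk : j ≠ k) : Prime (exP B j) ∧ ∀ a b : V → ℤ, a - b = (fun u => B u k) →
      ¬ exP B j ∣ mono a + mono b := by
  obtain ⟨c, hc⟩ := hI (fun v => if v = j then 1 else 0)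
  have h1 := hc j hj
  have h2 := hc k hk
  rw [if_pos rfl] at h1
  rw [if_neg hjk.symm] at h2
  have h3 : c (fun u => max (B u j) 0) = c (fun u => max (-B u j) 0) + 1 := by
    rw [← h1, ← map_add]; congr 1; funext u; simp only [Pi.add_apply]; omega
  refine ⟨prime_binom c h3, fun a b hab => not_dvd_of_chi c h3 ?_⟩
  rw [← hab, map_sub] at h2; omega

lemma three_step_pos {mt : V → Prop} {B : V → V → ℤ} (hB : Skew B) (hI : Inv mt B) {j k : V}
    (hj : mt j) (hk : mt k) (hjk : j ≠ k) (hc : 0 ≤ B j k) :
    ∃ q r : LA V, ¬ exP B j ∣ q ∧ ¬ exP B j ∣ r ∧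
      (run (gen, B) [j, k, j]).1 = fun u => algebraMap (LA V) (LK V)
        (Function.update (Function.update gA k q) j r u) := by
  obtain ⟨c, hc'⟩ := Int.eq_ofNat_of_zero_le hc
  obtain ⟨pP, hnd⟩ := exP_data hI hj hk hjk
  have hkj : B k j = -c := by rw [hB k j, hc']
  have s1 := hB.mutB j
  obtain ⟨B1, hB1⟩ : ∃ B1, B1 = mutB B j := ⟨_, rfl⟩
  obtain ⟨B2, hB2⟩ : ∃ B2, B2 = mutB B1 k := ⟨_, rfl⟩
  rw [← hB1] at s1
  have s2 : Skew B2 := hB2 ▸ s1.mutB k
  have a1 : B1 j k = -c := by rw [hB1, mutB_row, hc']
  have a2 : B1 k j = c := by rw [s1 k j, a1, neg_neg]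
  have a3 : B2 k j = -c := by rw [hB2, mutB_row, a2]
  have a4 : ∀ u, u ≠ j → B1 u k = B u k + max (B u j) 0 * c := by
    intro u hu
    rw [hB1]; simp [mutB, hu, hjk.symm, hc']
  have a5 : ∀ u, u ≠ k → B2 u j = -B u j + max (B1 u k) 0 * c := by
    intro u hu
    rw [hB2]; simp only [mutB, hu, hjk, or_self, if_false, a2]
    rw [hB1, mutB_col]; simp
  obtain ⟨z, hz⟩ : ∃ z, z = zA B j := ⟨_, rfl⟩
  obtain ⟨q, hq⟩ : ∃ q, q = (mono (off j k fun u => max (B1 u k) 0)
    + z ^ c * mono (off j k fun u => max (-B1 u k) 0)) * mono (-Pi.single k 1) := ⟨_, rfl⟩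
  have hq' : q * gA k = mono (off j k fun u => max (B1 u k) 0)
      + z ^ c * mono (off j k fun u => max (-B1 u k) 0) := by
    rw [hq, gA, mul_assoc, mul_comm (mono _), mono_neg, mul_one]
  have hP : exP B j = mono (off j k fun u => max (B u j) 0)
      + mono (off j k fun u => max (-B u j) 0) * gA k ^ c := by
    have e1 := prod_off hjk gA (fun _ _ _ => rfl) (fun u => B u j)
    have e2 := prod_off hjk gA (fun _ _ _ => rfl) (fun u => -B u j)
    rw [prod_gA] at e1 e2
    rw [exP, e1, e2]
    simp [hB.diag, hkj, mul_comm]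
  obtain ⟨nq, r, hr, nr⟩ := alg3 (exP B j) z (gA j) (gA k) _ _ _ _
    (mono (off j k fun u => max (B2 u j) 0)) (mono (off j k fun u => max (-B2 u j) 0)) q c
    (mono_unit _) (mono_unit _) (mono_unit _) (mono_unit _) (mono_unit _)
    (hz ▸ zA_mul B j) hP hq'
    (by
      rw [mono_pow, ← mono_add, ← mono_add, ← mono_add]
      congr 1
      funext u
      simp only [Pi.add_apply, Pi.smul_apply, smul_eq_mul, off]
      split_ifs with h
      · simp
      · push Not at h
        have := a5 u h.2
        rw [mul_comm] at this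
        omega)
    pP
    (by
      rintro rfl
      refine hnd _ _ ?_
      funext u
      simp only [Pi.sub_apply, off]
      split_ifs with h
      · rcases h with rfl | rfl
        · simpa using hc'.symm
        · simp [hB.diag]
      · push Not at h
        have := a4 u h.1
        simp at this
        omega)
    (by
      rintro rfl
      rw [gA, ← mono_add, ← mono_add]
      refine hnd _ _ ?_
      funext u
      simp only [Pi.sub_apply, Pi.add_apply, off]
      split_ifs with h
      · rcases h with rfl | rfl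
        · simpa using hc'.symm
        · simp [hB.diag, hjk.symm]
      · push Not at h
        have := a4 u h.1
        simp [h.1] at this ⊢
        omega)
  refine ⟨q, r, nq, nr, ?_⟩
  have hz0 : z ≠ 0 := by
    rintro rfl
    exact pP.ne_zero (by rw [← zA_mul, ← hz, zero_mul])
  show mutX (mutX (mutX gen B j) (mutB B j) k) (mutB (mutB B j) k) j = _
  rw [← hB1, ← hB2, mutX_gen, ← hz,
    mutX_alg (Function.update gA j z) B1 k q
      (by rw [Function.update_of_ne hjk.symm]; exact (mono_unit _).ne_zero) (by
        rw [prod_off hjk _ (fun u h1 _ => Function.update_of_ne h1 _ _),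
          prod_off hjk _ (fun u h1 _ => Function.update_of_ne h1 _ _)]
        simp [Function.update_of_ne hjk.symm, hq', a1, s1.diag]),
    mutX_alg (Function.update (Function.update gA j z) k q) B2 j r
      (by rwa [Function.update_of_ne hjk, Function.update_self]) (by
        rw [prod_off hjk _ (fun u h1 h2 => by
            rw [Function.update_of_ne h2, Function.update_of_ne h1]),
          prod_off hjk _ (fun u h1 h2 => by
            rw [Function.update_of_ne h2, Function.update_of_ne h1])]
        simp [Function.update_of_ne hjk, hr, a3, s2.diag])]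
  funext u
  congr 1
  by_cases h1 : u = j
  · subst h1; simp
  · by_cases h2 : u = k
    · subst h2; simp [Function.update_of_ne h1]
    · simp [Function.update_of_ne h1, Function.update_of_ne h2]

lemma three_step {mt : V → Prop} {B : V → V → ℤ} (hB : Skew B) (hI : Inv mt B) {j k : V}
    (hj : mt j) (hk : mt k) (hjk : j ≠ k) :
    ∃ q r : LA V, ¬ exP B j ∣ q ∧ ¬ exP B j ∣ r ∧
      (run (gen, B) [j, k, j]).1 = fun u => algebraMap (LA V) (LK V)
        (Function.update (Function.update gA k q) j r u) := by
  rcases le_total 0 (B j k) with h | h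
  · exact three_step_pos hB hI hj hk hjk h
  · have hB' : Skew (-B) := fun u v => by simp only [Pi.neg_apply]; rw [hB u v]
    have := three_step_pos hB' hI.neg hj hk hjk (by simpa using h)
    have e1 : exP (-B) j = exP B j := by simp [exP, add_comm]
    have e2 : (run (gen, -B) [j, k, j]).1 = (run (gen, B) [j, k, j]).1 := by
      show mutX (mutX (mutX gen (-B) j) (mutB (-B) j) k) (mutB (mutB (-B) j) k) j
        = mutX (mutX (mutX gen B j) (mutB B j) k) (mutB (mutB B j) k) j
      simp only [mutB_neg, mutX_neg]
    rwa [e1, e2] at this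

theorem laurent (mt : V → Prop) (n : ℕ) : ∀ B : V → V → ℤ, Skew B → Inv mt B →
    ∀ p : List V, p.length ≤ n → (∀ j ∈ p, mt j) → Lau B p := by
  have hS := posOf_pos (K := LK V) (eps (V := V))
  have hne : ∀ a : LA V, a ≠ 0 → algebraMap (LA V) (LK V) a ≠ 0 := fun a ha e =>
    ha (IsFractionRing.injective (LA V) (LK V) (by simpa using e))
  induction n with
  | zero =>
    intro B _ _ p hp _ v
    obtain rfl : p = [] := List.length_eq_zero_iff.mp (by omega)
    exact ⟨gA v, rfl⟩
  | succ n ih =>
    intro B hB hI p hp hm v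
    match p, hp, hm with
    | [], _, _ => exact ⟨gA v, rfl⟩
    | [j], _, _ => exact ⟨_, (congrFun (mutX_gen B j) v).symm⟩
    | j :: k :: p, hp, hm =>
      have hj : mt j := hm j (by simp)
      have hk : mt k := hm k (by simp)
      have hpm : ∀ i ∈ p, mt i := fun i hi => hm i (by simp [hi])
      simp only [List.length_cons] at hp
      by_cases hjk : j = k
      · subst hjk
        rw [run_cons, run_cons, mutate_mutate hS gen_pos hB]
        exact ih B hB hI p (by omega) hpm v
      obtain ⟨pP, -⟩ := exP_data hI hj hk hjk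
      obtain ⟨q, r, nq, nr, h3⟩ := three_step hB hI hj hk hjk
      have q0 : q ≠ 0 := by rintro rfl; exact nq (dvd_zero _)
      have r0 : r ≠ 0 := by rintro rfl; exact nr (dvd_zero _)
      have h1 : (run (gen, B) (j :: k :: p)).1 v ∈ Den (LK V) (exP B j * 1) := by
        rw [run_cons]
        refine spec hS (y := mutX gen B j) (hS.mutX gen_pos B j) (k :: p)
          (fun i hi => hm i (List.mem_cons_of_mem _ hi))
          (fun q hq => ih _ (hB.mutB j) (hI.mutB hB hj) q (by simp at hq; omega)) _ ?_ v
        intro u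
        rw [mutX_gen]
        refine ⟨alg_mem_Den _ _, ?_⟩
        by_cases hu : u = j
        · subst hu
          have : zA B u ∣ exP B u * 1 := ⟨gA u, by rw [zA_mul, mul_one]⟩
          simp only [Function.update_self]
          exact inv_mem_Den this (hne _ (ne_zero_of_dvd_ne_zero (by simpa using pP.ne_zero) this))
        · simp only [Function.update_of_ne hu]
          exact inv_mem_Den (mono_unit _).dvd (hne _ (mono_unit _).ne_zero)
      have h2 : (run (gen, B) (j :: k :: p)).1 v ∈ Den (LK V) (q * r) := by
        have s2 := (hB.mutB j).mutB k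
        have e : run (gen, B) (j :: k :: p) = run (run (gen, B) [j, k, j]) (j :: p) := by
          rw [run_cons, run_cons, run_cons (run (gen, B) [j, k, j])]
          congr 1
          exact (mutate_mutate hS (hS.mutX (hS.mutX gen_pos B j) (mutB B j) k) s2 j).symm
        rw [e]
        refine spec hS (y := (run (gen, B) [j, k, j]).1) (B := mutB (mutB (mutB B j) k) j)
          (hS.run _ (s := (gen, B)) gen_pos) (j :: p)
          (fun i hi => by
            rcases List.mem_cons.mp hi with rfl | hi
            exacts [hj, hpm i hi])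
          (fun q hq => ih _ (s2.mutB j) (((hI.mutB hB hj).mutB (hB.mutB j) hk).mutB s2 hj) q
            (by simp at hq; omega)) _ ?_ v
        intro u
        rw [h3]
        refine ⟨alg_mem_Den _ _, ?_⟩
        by_cases hu : u = j
        · subst hu
          simp only [Function.update_self]
          exact inv_mem_Den (dvd_mul_left _ _) (hne _ r0)
        · simp only [Function.update_of_ne hu]
          by_cases hu2 : u = k
          · subst hu2
            simp only [Function.update_self]
            exact inv_mem_Den (dvd_mul_right _ _) (hne _ q0)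
          · simp only [Function.update_of_ne hu2]
            exact inv_mem_Den (mono_unit _).dvd (hne _ (mono_unit _).ne_zero)
      exact Den_one (Den_cancel pP (fun h => (pP.dvd_or_dvd h).elim nq nr) h1 h2)

/-- The Laurent phenomenon in an arbitrary field, for a positive initial cluster. -/
theorem laurent_mem {F : Type} [Field F] {S : Set F} (hS : PosSet S) {y : V → F}
    (hy : ∀ v, y v ∈ S) {mt : V → Prop} {B : V → V → ℤ} (hB : Skew B) (hI : Inv mt B)
    (p : List V) (hp : ∀ j ∈ p, mt j) (T : Subring F) (hT : ∀ v, y v ∈ T ∧ (y v)⁻¹ ∈ T)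
    (v : V) : (run (y, B) p).1 v ∈ T :=
  spec hS hy p hp (fun q hq => laurent mt _ B hB hI q hq) T hT v

end Pool.Agent.H.MP_03aa11_co
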