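import Mathlib

/-! Generic determinants and brackets. -/

namespace Pool.Agent.H.MP_03aa11_co

open Finset Matrix MvPolynomial

lemma det_mem {m : Type} [Fintype m] [DecidableEq m] {S : Type} [CommRing S] (T : Subring S)
    (M : Matrix m m S) (h : ∀ r s, M r s ∈ T) : M.det ∈ T := by
  rw [Matrix.det_apply']
  exact T.sum_mem fun σ _ => T.mul_mem (intCast_mem T _) (T.prod_mem fun i _ => h _ _)

lemma not_mem_vars_det {σ m : Type} [Fintype m] [DecidableEq m] (M : Matrix m m (MvPolynomial σ ℤ))
    (x : σ) (h : ∀ r s, M r s = 0 ∨ ∃ y, y ≠ x ∧ M r s = X y) : x ∉ M.det.vars := by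
  have : M.det ∈ (supported ℤ ({x}ᶜ : Set σ)).toSubring := by
    refine det_mem _ M fun r s => ?_
    rcases h r s with h | ⟨y, hy, h⟩
    · rw [h]; exact zero_mem _
    · rw [h]; exact X_mem_supported.mpr hy
  intro hx
  exact (mem_supported.mp this) hx rfl

theorem prime_det {σ : Type} (m : ℕ) : ∀ φ : Fin (m + 1) → Fin (m + 1) → σ,
    (∀ r s r' s', φ r s = φ r' s' → r = r' ∧ s = s') →
    Prime (Matrix.of fun r s => (X (φ r s) : MvPolynomial σ ℤ)).det := by
  classical
  induction m with
  | zero => intro φ _; rw [Matrix.det_fin_one]; exact X_prime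
  | succ m ih =>
    intro φ hφ
    have hD := ih (fun r s => φ r.succ s.succ) (fun r s r' s' h => by
      have := hφ _ _ _ _ h
      exact ⟨Fin.succ_injective _ this.1, Fin.succ_injective _ this.2⟩)
    obtain ⟨D, hDe⟩ : ∃ D, D = (Matrix.of fun r s : Fin (m + 1) =>
      (X (φ r.succ s.succ) : MvPolynomial σ ℤ)).det := ⟨_, rfl⟩
    obtain ⟨N, hN⟩ : ∃ N : Matrix (Fin (m + 2)) (Fin (m + 2)) (MvPolynomial σ ℤ),
      N = Matrix.of fun r s => if r = 0 ∧ s = 0 then 0 else X (φ r s) := ⟨_, rfl⟩
    have e : (Matrix.of fun r s => (X (φ r s) : MvPolynomial σ ℤ)).det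
        = D * X (φ 0 0) + N.det := by
      rw [Matrix.det_succ_row_zero, Matrix.det_succ_row_zero N, Fin.sum_univ_succ,
        Fin.sum_univ_succ (n := m + 1)]
      have h1 : ∀ s, N.submatrix Fin.succ (Fin.succAbove s)
          = (Matrix.of fun r s => (X (φ r s) : MvPolynomial σ ℤ)).submatrix Fin.succ
            (Fin.succAbove s) := by
        intro s; ext1 a b; simp [hN]
      simp only [h1]
      have h2 : (Matrix.of fun r s => (X (φ r s) : MvPolynomial σ ℤ)).submatrix Fin.succ
            (Fin.succAbove 0) = Matrix.of fun r s : Fin (m + 1) =>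
              (X (φ r.succ s.succ) : MvPolynomial σ ℤ) := by
        ext1 a b; simp
      rw [h2, ← hDe]
      simp [hN, mul_comm]
    rw [← hDe] at hD
    rw [e]
    refine (irreducible_mul_X_add D N.det (φ 0 0) hD.ne_zero ?_ ?_ ?_).prime
    · rw [hDe]
      refine not_mem_vars_det _ _ fun r s => Or.inr ⟨_, fun h => ?_, rfl⟩
      exact Fin.succ_ne_zero _ (hφ _ _ _ _ h).1
    · refine not_mem_vars_det _ _ fun r s => ?_
      by_cases h : r = 0 ∧ s = 0
      · left; simp [hN, h]
      · right; exact ⟨φ r s, fun h' => h (hφ _ _ _ _ h'), by simp [hN, h]⟩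
    · refine hD.irreducible.isRelPrime_iff_not_dvd.mpr fun hd => ?_
      let τ : Equiv.Perm (Fin (m + 2)) := Equiv.swap 0 1
      let ev : MvPolynomial σ ℤ →+* ℤ := eval fun x => if ∃ r, φ r (τ r) = x then 1 else 0
      have hev : ∀ r s, ev (X (φ r s)) = if τ r = s then 1 else 0 := by
        intro r s
        simp only [ev, eval_X]
        congr 1
        apply propext
        constructor
        · rintro ⟨r', h⟩
          obtain ⟨rfl, h2⟩ := hφ _ _ _ _ h
          exact h2
        · rintro rfl; exact ⟨r, rfl⟩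
      have h1 : ev D = 0 := by
        rw [hDe, RingHom.map_det]
        refine Matrix.det_eq_zero_of_row_eq_zero 0 fun s => ?_
        simp only [RingHom.mapMatrix_apply, Matrix.map_apply, Matrix.of_apply, hev]
        rw [if_neg]
        simp [τ, (Fin.succ_ne_zero s).symm]
      have h2 : ev N.det ≠ 0 := by
        have : ev.mapMatrix N = τ.permMatrix ℤ := by
          ext r s
          simp only [RingHom.mapMatrix_apply, Matrix.map_apply, hN, Matrix.of_apply,
            Equiv.Perm.permMatrix, PEquiv.toMatrix_apply, Equiv.toPEquiv_apply,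
            Option.mem_def, Option.some.injEq]
          by_cases h : r = 0 ∧ s = 0
          · obtain ⟨rfl, rfl⟩ := h
            simp [τ]
          · rw [if_neg h, hev]
        rw [RingHom.map_det, this, Matrix.det_permutation]
        simp
      exact h2 (by simpa [h1] using map_dvd ev hd)

section Br
variable {S : Type} [CommRing S] {k : ℕ}

/-- The bracket of a list of column indices. -/
def br (w : ℕ → Fin k → S) (l : List ℕ) : S :=
  (Matrix.of fun r s : Fin k => w (l.getD s 0) r).det

lemma br_swap (w : ℕ → Fin k → S) (l1 l2 : List ℕ) (p q : ℕ)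
    (h : l1.length + 2 + l2.length = k) :
    br w (l1 ++ p :: q :: l2) = -br w (l1 ++ q :: p :: l2) := by
  let s : Fin k := ⟨l1.length, by omega⟩
  let t : Fin k := ⟨l1.length + 1, by omega⟩
  have hst : s ≠ t := by simp [s, t]
  have : (Matrix.of fun r i : Fin k => w ((l1 ++ p :: q :: l2).getD i 0) r)
      = (Matrix.of fun r i : Fin k => w ((l1 ++ q :: p :: l2).getD i 0) r).submatrix id
        (Equiv.swap s t) := by
    ext r i
    simp only [Matrix.of_apply, Matrix.submatrix_apply, id]
    congr 1
    by_cases h1 : i = s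
    · subst h1; simp [s, t]
    · by_cases h2 : i = t
      · subst h2; simp [s, t]
      · rw [Equiv.swap_apply_of_ne_of_ne h1 h2]
        have h3 : (i : ℕ) ≠ l1.length := fun e => h1 (Fin.ext e)
        have h4 : (i : ℕ) ≠ l1.length + 1 := fun e => h2 (Fin.ext e)
        simp only [List.getD_eq_getElem?_getD, List.getElem?_append]
        split_ifs with h5
        · rfl
        · obtain ⟨d, hd⟩ : ∃ d, (i : ℕ) - l1.length = d + 2 := ⟨i - l1.length - 2, by omega⟩
          rw [hd]; simp
  rw [br, this, Matrix.det_permute', Equiv.Perm.sign_swap hst]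
  simp [br]

lemma br_move (w : ℕ → Fin k → S) (C l1 l2 : List ℕ) (p : ℕ)
    (h : l1.length + C.length + 1 + l2.length = k) :
    br w (l1 ++ (C ++ p :: l2)) = (-1) ^ C.length * br w (l1 ++ p :: (C ++ l2)) := by
  induction C generalizing l1 with
  | nil => simp
  | cons c C ih =>
    have := ih (l1 ++ [c]) (by simp at h ⊢; omega)
    simp only [List.append_assoc, List.cons_append, List.nil_append] at this ⊢
    rw [this, br_swap w l1 _ c p (by simp at h ⊢; omega), List.length_cons, pow_succ]
    ring

lemma br_dup (w : ℕ → Fin k → S) (l : List ℕ) (h : l.length = k) (hl : ¬ l.Nodup) :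
    br w l = 0 := by
  rw [List.nodup_iff_injective_getElem] at hl
  obtain ⟨a, b, hab, hne⟩ := Function.not_injective_iff.mp hl
  refine Matrix.det_zero_of_column_eq (i := ⟨a, by omega⟩) (j := ⟨b, by omega⟩)
    (fun e => hne (Fin.ext (by simpa using e))) fun r => ?_
  simp only [Matrix.of_apply, List.getD_eq_getElem?_getD, List.getElem?_eq_getElem a.2,
    List.getElem?_eq_getElem b.2, Option.getD_some]
  exact congrArg (fun c => w c r) hab

lemma br_three0 {m : ℕ} (w : ℕ → Fin (m + 2) → S) (T : List ℕ) (h : T.length = m)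
    (p q r u : ℕ) :
    br w (q :: r :: T) * br w (p :: u :: T)
      = br w (u :: r :: T) * br w (p :: q :: T) + br w (q :: u :: T) * br w (p :: r :: T) := by
  have up0 : ∀ a b c, (Matrix.of fun r s : Fin (m + 2) => w ((a :: b :: T).getD s 0) r).updateCol
      0 (w c) = Matrix.of fun r s : Fin (m + 2) => w ((c :: b :: T).getD s 0) r := by
    intro a b c; ext i s
    refine Fin.cases ?_ (fun s => ?_) s
    · simp
    · rw [Matrix.updateCol_ne (Fin.succ_ne_zero s)]; simp
  have up1 : ∀ a b c, (Matrix.of fun r s : Fin (m + 2) => w ((a :: b :: T).getD s 0) r).updateCol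
      1 (w c) = Matrix.of fun r s : Fin (m + 2) => w ((a :: c :: T).getD s 0) r := by
    intro a b c; ext i s
    refine Fin.cases ?_ (fun s => Fin.cases ?_ (fun s => ?_) s) s
    · rw [Matrix.updateCol_ne Fin.zero_ne_one]; simp
    · simp
    · rw [Matrix.updateCol_ne (Fin.succ_succ_ne_one s)]; simp
  obtain ⟨N, hN⟩ : ∃ N, N = Matrix.of fun i s : Fin (m + 2) => w ((q :: r :: T).getD s 0) i :=
    ⟨_, rfl⟩
  obtain ⟨M, hM⟩ : ∃ M, M = Matrix.of fun i s : Fin (m + 2) => w ((p :: u :: T).getD s 0) i :=
    ⟨_, rfl⟩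
  let φ : (Fin (m + 2) → S) →ₗ[S] S := (LinearMap.proj 1).comp (Matrix.cramer M)
  have hφ : ∀ c, φ (w c) = br w (p :: c :: T) := by
    intro c
    simp only [φ, LinearMap.comp_apply, LinearMap.proj_apply, Matrix.cramer_apply, hM, up1, br]
  have h1 : N *ᵥ cramer N (w u) = ∑ s : Fin (m + 2),
      cramer N (w u) s • w ((q :: r :: T).getD s 0) := by
    funext i
    simp [Matrix.mulVec, dotProduct, hN, Finset.sum_apply, mul_comm]
  have h2 := congrArg φ (h1.symm.trans (Matrix.mulVec_cramer N (w u)))
  simp only [map_sum, map_smul, hφ, smul_eq_mul] at h2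
  rw [Fin.sum_univ_succ, Fin.sum_univ_succ, Finset.sum_eq_zero] at h2
  · simp only [Matrix.cramer_apply, Fin.succ_zero_eq_one, hN, up0, up1] at h2
    simpa [br] using h2.symm
  · intro s _
    rw [br_dup, mul_zero]
    · simp [h]
    · have : (s : ℕ) < T.length := by omega
      simp [List.getElem?_eq_getElem this]

lemma br_front (w : ℕ → Fin k → S) (P T : List ℕ) (a b : ℕ) (h : P.length + 2 + T.length = k) :
    br w (P ++ a :: b :: T) = br w (a :: b :: (P ++ T)) := by
  have e1 := br_move w P [] (b :: T) a (by simp; omega)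
  have e2 := br_move w P [a] T b (by simp; omega)
  simp only [List.nil_append, List.cons_append] at e1 e2
  rw [e1, e2, ← mul_assoc, ← mul_pow]; simp

lemma br_three (w : ℕ → Fin k → S) (P T : List ℕ) (h : P.length + 2 + T.length = k)
    (p q r u : ℕ) :
    br w (P ++ q :: r :: T) * br w (P ++ p :: u :: T)
      = br w (P ++ u :: r :: T) * br w (P ++ p :: q :: T)
        + br w (P ++ q :: u :: T) * br w (P ++ p :: r :: T) := by
  simp only [br_front w P T _ _ h]
  obtain rfl : k = (P ++ T).length + 2 := by simp; omega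
  exact br_three0 w _ rfl p q r u

lemma br_hex (w : ℕ → Fin k → S) (P T : List ℕ) (h : P.length + 3 + T.length = k)
    (a b c d e f : ℕ) :
    br w (P ++ a :: d :: e :: T) * (br w (P ++ a :: b :: d :: T) * br w (P ++ c :: e :: f :: T)
      - br w (P ++ a :: b :: c :: T) * br w (P ++ d :: e :: f :: T))
    = br w (P ++ a :: c :: d :: T) * br w (P ++ a :: b :: e :: T) * br w (P ++ d :: e :: f :: T)
      + br w (P ++ a :: e :: f :: T) * br w (P ++ c :: d :: e :: T)
        * br w (P ++ a :: b :: d :: T) := by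
  have s1 : ∀ x y z, br w (P ++ x :: y :: z :: T) = -br w (P ++ y :: x :: z :: T) :=
    fun x y z => br_swap w P (z :: T) x y (by simp; omega)
  have s2 : ∀ x y z, br w (P ++ x :: y :: z :: T) = -br w (P ++ x :: z :: y :: T) := by
    intro x y z
    simpa using br_swap w (P ++ [x]) T y z (by simp; omega)
  have A := br_three w P (e :: T) (by simp; omega) a c f d
  have B := br_three w (P ++ [a]) T (by simp; omega) b c e d
  simp only [List.append_assoc, List.cons_append, List.nil_append] at B
  rw [s2 c f e, s2 d f e, s2 a f e] at A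
  linear_combination (-br w (P ++ a :: b :: d :: T)) * A + br w (P ++ d :: e :: f :: T) * B

lemma br_map (w : ℕ → Fin k → S) (g : ℕ → ℕ) (l : List ℕ) (h : l.length = k) :
    br (fun c => w (g c)) l = br w (l.map g) := by
  unfold br
  congr 1
  ext r s
  have : (s : ℕ) < l.length := by omega
  simp [List.getElem?_eq_getElem this]

lemma map_br {S' : Type} [CommRing S'] (φ : S →+* S') (w : ℕ → Fin k → S) (l : List ℕ) :
    φ (br w l) = br (fun c r => φ (w c r)) l := by
  rw [br, RingHom.map_det]; rfl

lemma br_zero (w : ℕ → Fin k → S) (l : List ℕ) (h : l.length = k) {c : ℕ} (hc : c ∈ l)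
    (h0 : w c = 0) : br w l = 0 := by
  obtain ⟨i, hi, rfl⟩ := List.getElem_of_mem hc
  refine Matrix.det_eq_zero_of_column_eq_zero ⟨i, by omega⟩ fun r => ?_
  simp [List.getElem?_eq_getElem hi, h0]

lemma br_congr {w w' : ℕ → Fin k → S} (l : List ℕ) (h : l.length = k)
    (hw : ∀ c ∈ l, w c = w' c) : br w l = br w' l := by
  unfold br
  congr 1
  ext r s
  have : (s : ℕ) < l.length := by omega
  simp [List.getElem?_eq_getElem this, hw]

end Br

end Pool.Agent.H.MP_03aa11_co
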