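import Pool.Agent.H.MP_03aa11_co.C
import Pool.Agent.H.MP_03aa11_co.D

/-! The rectangles seed of the Grassmannian `Gr(k, n)`, `n = w + k + 1`. -/

namespace Pool.Agent.H.MP_03aa11_co

open Finset MvPolynomial

/-- Vertices: the empty rectangle, and `some (i, j)` for the `(i+1) × (j+1)` rectangle inside the
`k × (n - k)` rectangle. -/
abbrev Vx (k w : ℕ) := Option (Fin k × Fin (w + 1))

/-- Integer polynomials in the entries of a generic `k × n` matrix. -/
abbrev Rg (k w : ℕ) := MvPolynomial (Fin k × Fin (w + k + 1)) ℤ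

/-- Rational functions in the entries of a generic `k × n` matrix. -/
abbrev Fd (k w : ℕ) := FractionRing (Rg k w)

/-- Column `c` of the generic matrix (columns are numbered `0, ..., n - 1`). -/
noncomputable def gcol (k w : ℕ) (c : ℕ) (r : Fin k) : Rg k w :=
  if h : c < w + k + 1 then X (r, ⟨c, h⟩) else 0

/-- The Plücker coordinate of the `i × j` rectangle: columns `0, ..., k-i-1` and
`k-i+j, ..., k+j-1`. -/
noncomputable def rectPlu (k w i j : ℕ) : Rg k w :=
  (Matrix.of fun r s : Fin k => gcol k w (if (s : ℕ) + i < k then s else s + j) r).det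

/-- The rectangles cluster. -/
noncomputable def initX (k w : ℕ) : Vx k w → Rg k w
  | none => rectPlu k w 0 0
  | some (i, j) => rectPlu k w (i + 1) (j + 1)

/-- Arrows of the quiver of the rectangles seed. -/
def arrow {k w : ℕ} : Vx k w → Vx k w → Bool
  | none, some (i, j) => decide ((i : ℕ) = 0 ∧ (j : ℕ) = 0)
  | some (i, j), some (i', j') =>
      decide (((i' : ℕ) = i ∧ (j' : ℕ) = j + 1) ∨ ((i' : ℕ) = i + 1 ∧ (j' : ℕ) = j)
        ∨ ((i : ℕ) = i' + 1 ∧ (j : ℕ) = j' + 1))
  | _, none => false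

/-- The exchange matrix of the rectangles seed. -/
def initB (k w : ℕ) (u v : Vx k w) : ℤ :=
  (if arrow u v then 1 else 0) - (if arrow v u then 1 else 0)

/-- Mutable vertices: nonempty rectangles of height `< k` and width `< n - k`. -/
def Mutable {k w : ℕ} : Vx k w → Prop
  | none => False
  | some (i, j) => (i : ℕ) + 1 < k ∧ (j : ℕ) + 1 < w + 1

/-- Cluster variables (frozen ones included) of the Grassmannian cluster algebra. -/
def IsClusterVar (k w : ℕ) (z : Fd k w) : Prop :=
  ∃ p : List (Vx k w), (∀ j ∈ p, Mutable j) ∧ ∃ v,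
    z = (run (fun u => algebraMap (Rg k w) (Fd k w) (initX k w u), initB k w) p).1 v

variable {k w : ℕ}

lemma initB_skew : Skew (initB k w) := fun u v => by simp [initB]

def vcol (k w a b : ℕ) : Vx k w :=
  if h : 0 < a ∧ a ≤ k ∧ 0 < b ∧ b ≤ w + 1 then some (⟨a - 1, by omega⟩, ⟨b - 1, by omega⟩)
  else none

lemma none_eq_vcol {a b : ℕ} (ha : a ≤ k) (hb : b ≤ w + 1) :
    vcol k w a b = none ↔ a = 0 ∨ b = 0 := by
  unfold vcol; split_ifs with h
  · simp; omega
  · simp; omega

lemma some_eq_vcol {a b : ℕ} (i : Fin k) (j : Fin (w + 1)) :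
    vcol k w a b = some (i, j) ↔ a = i + 1 ∧ b = j + 1 := by
  have := i.2; have := j.2
  unfold vcol; split_ifs with h
  · simp [Fin.ext_iff]; omega
  · simp; omega

lemma rectPlu_zero {a b : ℕ} (h : a = 0 ∨ b = 0) : rectPlu k w a b = rectPlu k w 0 0 := by
  unfold rectPlu
  congr 1; ext1 r s
  rcases h with rfl | rfl <;> simp

lemma initX_vcol {a b : ℕ} (ha : a ≤ k) (hb : b ≤ w + 1) :
    initX k w (vcol k w a b) = rectPlu k w a b := by
  by_cases h : a = 0 ∨ b = 0
  · rw [(none_eq_vcol ha hb).mpr h, rectPlu_zero h]; rfl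
  · rw [(some_eq_vcol (a := a) (b := b) ⟨a - 1, by omega⟩ ⟨b - 1, by omega⟩).mpr
      (by simp; omega)]
    simp only [initX]
    congr 1 <;> omega

lemma col_pos {i : Fin k} {j : Fin (w + 1)} (h : Mutable (some (i, j) : Vx k w)) (u : Vx k w) :
    (initB k w u (some (i, j))).toNat
      + (if (i : ℕ) = 0 ∨ (j : ℕ) = 0 then 1 else 0) * (if none = u then 1 else 0)
    = (if vcol k w (i + 1) j = u then 1 else 0) + (if vcol k w i (j + 1) = u then 1 else 0)
      + (if vcol k w (i + 2) (j + 2) = u then 1 else 0) := by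
  obtain ⟨h1, h2⟩ := h
  rcases u with _ | ⟨a, b⟩
  · rw [if_congr (none_eq_vcol (by omega) (by omega)) rfl rfl,
      if_congr (none_eq_vcol (a := i) (by omega) (by omega)) rfl rfl,
      if_congr (none_eq_vcol (a := i + 2) (by omega) (by omega)) rfl rfl]
    simp only [initB, arrow, decide_eq_true_eq]
    split_ifs <;> simp_all <;> omega
  · simp only [some_eq_vcol, initB, arrow, decide_eq_true_eq, reduceCtorEq, if_false, mul_zero]
    split_ifs <;> omega

lemma col_neg {i : Fin k} {j : Fin (w + 1)} (h : Mutable (some (i, j) : Vx k w)) (u : Vx k w) :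
    (-initB k w u (some (i, j))).toNat
      + (if (i : ℕ) = 0 ∨ (j : ℕ) = 0 then 1 else 0) * (if none = u then 1 else 0)
    = (if vcol k w (i + 1) (j + 2) = u then 1 else 0)
      + (if vcol k w (i + 2) (j + 1) = u then 1 else 0)
      + (if vcol k w i j = u then 1 else 0) := by
  obtain ⟨h1, h2⟩ := h
  rcases u with _ | ⟨a, b⟩
  · rw [if_congr (none_eq_vcol (by omega) (by omega)) rfl rfl,
      if_congr (none_eq_vcol (a := i + 2) (by omega) (by omega)) rfl rfl,
      if_congr (none_eq_vcol (a := i) (by omega) (by omega)) rfl rfl]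
    simp only [initB, arrow, decide_eq_true_eq]
    split_ifs <;> simp_all <;> omega
  · simp only [some_eq_vcol, initB, arrow, decide_eq_true_eq, reduceCtorEq, if_false, mul_zero]
    split_ifs <;> omega

lemma prod_three {M V : Type} [CommMonoid M] [Fintype V] [DecidableEq V] (f : V → M)
    (g : V → ℕ) (e : ℕ) (o a b c : V)
    (h : ∀ u, g u + e * (if o = u then 1 else 0)
      = (if a = u then 1 else 0) + (if b = u then 1 else 0) + (if c = u then 1 else 0)) :
    (∏ u, f u ^ g u) * f o ^ e = f a * f b * f c := by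
  have h1 : ∀ x : V, f x = ∏ u, f u ^ (if x = u then 1 else 0) := by
    intro x; rw [Finset.prod_pow_boole]; simp
  rw [h1 o, h1 a, h1 b, h1 c, ← Finset.prod_pow, ← Finset.prod_mul_distrib,
    ← Finset.prod_mul_distrib, ← Finset.prod_mul_distrib]
  refine Finset.prod_congr rfl fun u _ => ?_
  rw [← pow_mul, ← pow_add, ← pow_add, ← pow_add, mul_comm _ e, h]

def Gam (t : ℕ → ℕ → ℤ) : ℕ → ℕ → ℤ
  | a + 2, b + 2 => t a b - Gam t (a + 1) b - Gam t a (b + 1) + Gam t (a + 1) (b + 2)
      + Gam t (a + 2) (b + 1) + Gam t a b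
  | _, _ => 0
termination_by a b => a + b

lemma Gam_zero (t : ℕ → ℕ → ℤ) {a b : ℕ} (h : a = 0 ∨ b = 0) : Gam t a b = 0 := by
  rcases h with rfl | rfl
  · rw [Gam]; simp
  · rw [Gam]; simp

lemma initB_inv : Inv Mutable (initB k w) := by
  intro t
  let T : ℕ → ℕ → ℤ := fun a b => t (vcol k w (a + 1) (b + 1))
  let γ : Vx k w → ℤ := fun u => match u with
    | none => 0
    | some (i, j) => Gam T (i + 1) (j + 1)
  have hγ : ∀ a b, a ≤ k → b ≤ w + 1 → γ (vcol k w a b) = Gam T a b := by
    intro a b ha hb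
    by_cases h : a = 0 ∨ b = 0
    · rw [(none_eq_vcol ha hb).mpr h, Gam_zero T h]
    · rw [(some_eq_vcol (a := a) (b := b) ⟨a - 1, by omega⟩ ⟨b - 1, by omega⟩).mpr
        (by simp; omega)]
      simp only [γ]
      congr 1 <;> omega
  refine ⟨{ toFun := fun m => ∑ u, m u * γ u
            map_zero' := by simp
            map_add' := by intro a b; simp [add_mul, Finset.sum_add_distrib] }, ?_⟩
  rintro (_ | ⟨i, j⟩) hv
  · exact hv.elim
  have e1 := prod_three (M := Multiplicative ℤ) (fun u => Multiplicative.ofAdd (γ u)) _ _ _ _ _ _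
    (col_pos hv)
  have e2 := prod_three (M := Multiplicative ℤ) (fun u => Multiplicative.ofAdd (γ u)) _ _ _ _ _ _
    (col_neg hv)
  obtain ⟨h1, h2⟩ := hv
  have e3 := congrArg Multiplicative.toAdd e1
  have e4 := congrArg Multiplicative.toAdd e2
  simp only [toAdd_mul, toAdd_prod, toAdd_pow, toAdd_ofAdd, nsmul_eq_mul] at e3 e4
  rw [hγ _ _ (by omega) (by omega), hγ _ _ (by omega) (by omega),
    hγ _ _ (by omega) (by omega)] at e3 e4
  have e5 : ∑ u, initB k w u (some (i, j)) * γ u
      = ∑ u, ((initB k w u (some (i, j))).toNat : ℤ) * γ u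
        - ∑ u, ((-initB k w u (some (i, j))).toNat : ℤ) * γ u := by
    rw [← Finset.sum_sub_distrib]
    refine Finset.sum_congr rfl fun u _ => ?_
    rw [← sub_mul]; congr 1; omega
  have e6 : T i j = t (some (i, j)) := by
    simp only [T]; rw [(some_eq_vcol i j).mpr ⟨rfl, rfl⟩]
  have e7 := Gam.eq_1 T i j
  simp only [AddMonoidHom.coe_mk, ZeroHom.coe_mk]
  rw [e5, ← e6]
  linear_combination e3 - e4 + e7

def rl (k i j : ℕ) : List ℕ := List.range (k - i) ++ List.range' (k - i + j) i

lemma rl_length {i j : ℕ} (h : i ≤ k) : (rl k i j).length = k := by simp [rl]; omega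

lemma mem_rl {i j x : ℕ} (h : i ≤ k) :
    x ∈ rl k i j ↔ x < k - i ∨ (k - i + j ≤ x ∧ x < k + j) := by
  simp [rl, List.mem_range'_1]; omega

lemma rl_nodup {i j : ℕ} : (rl k i j).Nodup := by
  simp only [rl, List.nodup_append, List.nodup_range, List.mem_range,
    List.mem_range'_1, true_and]
  exact ⟨List.nodup_range' 1, fun a ha b hb => by omega⟩

lemma rectPlu_eq {i j : ℕ} (h : i ≤ k) : rectPlu k w i j = br (gcol k w) (rl k i j) := by
  unfold rectPlu br
  congr 1; ext1 r s
  have := s.2
  simp only [Matrix.of_apply, rl, List.getD_eq_getElem?_getD, List.getElem?_append,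
    List.length_range]
  congr 1
  split_ifs with h1 h2 h2
  · simp [h2]
  · omega
  · omega
  · rw [List.getElem?_range' (by omega)]; simp; omega

lemma prime_br (hk : 0 < k) (l : List ℕ) (h : l.length = k) (hl : l.Nodup)
    (hn : ∀ c ∈ l, c < w + k + 1) : Prime (br (gcol k w) l) := by
  obtain ⟨m, rfl⟩ : ∃ m, k = m + 1 := ⟨k - 1, by omega⟩
  have hs : ∀ s : Fin (m + 1), (s : ℕ) < l.length := fun s => by omega
  have := prime_det (σ := Fin (m + 1) × Fin (w + (m + 1) + 1)) m
    (fun r s => (r, ⟨l[(s : ℕ)]'(hs s), hn _ (List.getElem_mem _)⟩)) (by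
      intro r s r' s' e
      simp only [Prod.mk.injEq, Fin.mk.injEq] at e
      exact ⟨e.1, Fin.ext ((List.Nodup.getElem_inj_iff hl).mp e.2)⟩)
  unfold br
  convert this using 2
  ext1 r s
  simp [gcol, List.getElem?_eq_getElem (hs s),
    Nat.lt_succ_iff.mp (hn _ (List.getElem_mem (hs s)))]

/-- Substituting columns. -/
noncomputable def sub {S : Type} [CommRing S] (y : ℕ → Fin k → S) : Rg k w →+* S :=
  (aeval fun x : Fin k × Fin (w + k + 1) => y x.2 x.1).toRingHom

lemma sub_br {S : Type} [CommRing S] (y : ℕ → Fin k → S) (l : List ℕ) (h : l.length = k)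
    (hn : ∀ c ∈ l, c < w + k + 1) : sub y (br (gcol k w) l) = br y l := by
  rw [map_br]
  refine br_congr l h fun c hc => ?_
  funext r
  simp [sub, gcol, hn c hc]

lemma not_dvd_br (hk : 0 < k) (l l' : List ℕ) (h : l.length = k) (hn : ∀ c ∈ l, c < w + k + 1)
    (h' : l'.length = k) (hl' : l'.Nodup) (hn' : ∀ c ∈ l', c < w + k + 1) {c : ℕ} (hc : c ∈ l)
    (hc' : c ∉ l') : ¬ br (gcol k w) l ∣ br (gcol k w) l' := by
  intro hd
  have := map_dvd (sub (w := w) fun x => if x = c then 0 else gcol k w x) hd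
  rw [sub_br _ l h hn, sub_br _ l' h' hn', br_zero _ l h hc (by simp),
    br_congr (w' := gcol k w) l' h' (fun x hx => if_neg (by rintro rfl; exact hc' hx))] at this
  exact (prime_br hk l' h' hl' hn').ne_zero (zero_dvd_iff.mp this)

lemma rl_bound {i j : ℕ} (hi : i ≤ k) (hj : j ≤ w + 1) : ∀ c ∈ rl k i j, c < w + k + 1 := by
  intro c hc; rw [mem_rl hi] at hc; omega

lemma prime_rect (hk : 0 < k) {i j : ℕ} (hi : i ≤ k) (hj : j ≤ w + 1) :
    Prime (rectPlu k w i j) := by
  rw [rectPlu_eq hi]
  exact prime_br hk _ (rl_length hi) rl_nodup (rl_bound hi hj)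

lemma prime_initX (hk : 0 < k) (u : Vx k w) : Prime (initX k w u) := by
  rcases u with _ | ⟨i, j⟩
  · exact prime_rect hk (by omega) (by omega)
  · exact prime_rect hk (by omega) (by omega)

lemma initX_not_dvd {i : Fin k} {j : Fin (w + 1)} {u : Vx k w} (hu : u ≠ some (i, j)) :
    ¬ initX k w (some (i, j)) ∣ initX k w u := by
  have hi := i.2
  have hj := j.2
  rcases u with _ | ⟨a, b⟩
  · simp only [initX]
    rw [rectPlu_eq (by omega), rectPlu_eq (by omega)]
    refine not_dvd_br (by omega) _ _ (rl_length (by omega)) (rl_bound (by omega) (by omega))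
      (rl_length (by omega)) rl_nodup (rl_bound (by omega) (by omega)) (c := k + j) ?_ ?_
    · rw [mem_rl (by omega)]; omega
    · rw [mem_rl (by omega)]; omega
  · have ha := a.2
    have hb := b.2
    have hne : (a : ℕ) ≠ i ∨ (b : ℕ) ≠ j := by
      by_contra h
      push Not at h
      exact hu (by rw [Fin.ext h.1, Fin.ext h.2])
    obtain ⟨c, h1, h2⟩ : ∃ c, c ∈ rl k (i + 1) (j + 1) ∧ c ∉ rl k (a + 1) (b + 1) := by
      by_contra h
      push Not at h
      have h1 := h (k + j)
      have h2 := h (k - (a + 1))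
      have h3 := h (max (k - (a + 1)) (k - (i + 1) + (j + 1)))
      rw [mem_rl (by omega), mem_rl (by omega)] at h1 h2 h3
      omega
    simp only [initX]
    rw [rectPlu_eq (by omega), rectPlu_eq (by omega)]
    exact not_dvd_br (by omega) _ _ (rl_length (by omega)) (rl_bound (by omega) (by omega))
      (rl_length (by omega)) rl_nodup (rl_bound (by omega) (by omega)) h1 h2

noncomputable def vand (k w : ℕ) : Rg k w →+* ℤ := sub fun c r => (c : ℤ) ^ (r : ℕ)

lemma vand_rect {i j : ℕ} (hj : j ≤ w + 1) : 0 < vand k w (rectPlu k w i j) := by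
  have : vand k w (rectPlu k w i j) = (Matrix.vandermonde fun s : Fin k =>
      (((if (s : ℕ) + i < k then s else s + j : ℕ)) : ℤ)).det := by
    rw [rectPlu, RingHom.map_det, ← Matrix.det_transpose]
    congr 1; ext s r
    have := s.2
    simp only [Matrix.transpose_apply, RingHom.mapMatrix_apply, Matrix.map_apply,
      Matrix.of_apply, Matrix.vandermonde_apply, gcol]
    rw [dif_pos (by split_ifs <;> omega)]
    simp [vand, sub]
  rw [this, Matrix.det_vandermonde]
  refine Finset.prod_pos fun s _ => Finset.prod_pos fun t ht => ?_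
  have : (s : ℕ) < t := Fin.lt_def.mp (Finset.mem_Ioi.mp ht)
  split_ifs <;> omega

lemma vand_initX (u : Vx k w) : 0 < vand k w (initX k w u) := by
  rcases u with _ | ⟨i, j⟩
  · exact vand_rect (by omega)
  · exact vand_rect (by omega)

end Pool.Agent.H.MP_03aa11_co
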