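import Pool.Agent.H.MP_03aa11_co.E

/-! Every cluster variable is a polynomial divided by frozen variables. -/

namespace Pool.Agent.H.MP_03aa11_co

open Finset MvPolynomial

variable {k w : ℕ}

lemma exch_one (p f : ℕ) (hf : f + 2 ≤ w + 1) :
    ∃ x : Rg (p + 2) w, rectPlu (p + 2) w 1 (f + 1) * x
      = rectPlu (p + 2) w 1 f * rectPlu (p + 2) w 0 (f + 1) * rectPlu (p + 2) w 2 (f + 2)
        + rectPlu (p + 2) w 1 (f + 2) * rectPlu (p + 2) w 2 (f + 1) * rectPlu (p + 2) w 0 f
      ∧ ¬ rectPlu (p + 2) w 1 (f + 1) ∣ x := by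
  have l1 : ∀ j, rl (p + 2) 1 j = List.range p ++ [p, p + 1 + j] := by
    intro j; simp [rl, List.range_succ]
  have l2 : ∀ j, rl (p + 2) 2 j = List.range p ++ [p + j, p + j + 1] := by
    intro j; simp [rl, List.range'_succ]
  refine ⟨rectPlu (p + 2) w 0 0 * br (gcol (p + 2) w) (List.range p ++ [p + f + 1, p + f + 3]),
    ?_, ?_⟩
  · rw [rectPlu_zero (a := 0) (b := f + 1) (Or.inl rfl), rectPlu_zero (a := 0) (b := f) (Or.inl rfl)]
    simp only [rectPlu_eq (k := p + 2) (i := 1) (by omega),
      rectPlu_eq (k := p + 2) (i := 2) (by omega), l1, l2]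
    have A := br_three (gcol (p + 2) w) (List.range p) [] (by simp) p (p + f + 1) (p + f + 3)
      (p + f + 2)
    rw [show p + 1 + (f + 1) = p + f + 2 by ring, show p + 1 + f = p + f + 1 by ring,
      show p + (f + 2) = p + f + 2 by ring, show p + 1 + (f + 2) = p + f + 3 by ring,
      show p + (f + 1) = p + f + 1 by ring, show p + f + 1 + 1 = p + f + 2 by ring,
      show p + f + 2 + 1 = p + f + 3 by ring]
    linear_combination rectPlu (p + 2) w 0 0 * A
  · intro h
    rcases (prime_rect (by omega) (by omega) (by omega)).dvd_or_dvd h with h | h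
    · exact initX_not_dvd (k := p + 2) (w := w) (i := ⟨0, by omega⟩) (j := ⟨f, by omega⟩)
        (u := none) (by simp) h
    · rw [rectPlu_eq (by omega)] at h
      refine not_dvd_br (by omega) _ _ (rl_length (by omega)) (rl_bound (by omega) (by omega))
        (by simp) ?_ ?_ (c := p + f + 2) ?_ ?_ h
      · simp [List.nodup_append, List.nodup_range]; omega
      · intro c hc; simp at hc; omega
      · rw [mem_rl (by omega)]; omega
      · simp; omega

lemma exch_two (p e f : ℕ) (hk : k = p + e + 3) (hf : f + 2 ≤ w + 1) :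
    ∃ x : Rg k w, rectPlu k w (e + 2) (f + 1) * x
      = rectPlu k w (e + 2) f * rectPlu k w (e + 1) (f + 1) * rectPlu k w (e + 3) (f + 2)
        + rectPlu k w (e + 2) (f + 2) * rectPlu k w (e + 3) (f + 1) * rectPlu k w (e + 1) f
      ∧ ¬ rectPlu k w (e + 2) (f + 1) ∣ x := by
  obtain ⟨P, hP⟩ : ∃ P, P = List.range p := ⟨_, rfl⟩
  obtain ⟨C, hC⟩ : ∃ C, C = List.range' (p + f + 3) e := ⟨_, rfl⟩
  obtain ⟨y, hy⟩ : ∃ y, y = gcol k w := ⟨_, rfl⟩
  have lP : P.length = p := by simp [hP]
  have lC : C.length = e := by simp [hC]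
  have k1 : k - (e + 1) = p + 1 + 1 := by omega
  have k2 : k - (e + 2) = p + 1 := by omega
  have k3 : k - (e + 3) = p := by omega
  have r1 : ∀ s, List.range' s (e + 1) = s :: List.range' (s + 1) e := fun s => List.range'_succ
  have r2 : List.range' (p + f + 3) (e + 1) = C ++ [p + f + 3 + e] := by
    rw [List.range'_concat, hC]; simp
  have r3 : List.range' (p + f + 3) (e + 2) = C ++ [p + f + 3 + e, p + f + 3 + e + 1] := by
    rw [List.range'_concat, r2]; simp [add_assoc]
  have mv1 : ∀ l1 : List ℕ, ∀ c, l1.length = p + 2 →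
      br y (l1 ++ (C ++ [c])) = (-1) ^ e * br y (l1 ++ c :: C) := by
    intro l1 c h
    have := br_move y C l1 [] c (by simp; omega)
    simpa [lC] using this
  have mv2 : ∀ l1 : List ℕ, ∀ c d, l1.length = p + 1 →
      br y (l1 ++ (C ++ [c, d])) = br y (l1 ++ c :: d :: C) := by
    intro l1 c d h
    have e1 := br_move y C l1 [d] c (by simp; omega)
    have e2 := mv1 (l1 ++ [c]) d (by simp; omega)
    simp only [List.append_assoc, List.cons_append, List.nil_append, lC] at e1 e2
    rw [e1, e2, ← mul_assoc, ← mul_pow]; simp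
  have g1 : rectPlu k w (e + 2) (f + 1)
      = (-1) ^ e * br y (P ++ p :: (p + f + 2) :: (p + f + 3 + e) :: C) := by
    have := mv1 (P ++ [p, p + f + 2]) (p + f + 3 + e) (by simp [lP])
    rw [rectPlu_eq (by omega), rl, k2, List.range'_succ, show p + 1 + (f + 1) = p + f + 2 by ring,
      r2, List.range_succ, ← hP, ← hy]
    simpa using this
  have g2 : rectPlu k w (e + 2) f = br y (P ++ p :: (p + f + 1) :: (p + f + 2) :: C) := by
    rw [rectPlu_eq (by omega), rl, k2, List.range'_succ, r1, show p + 1 + f = p + f + 1 by ring,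
      ← hC, List.range_succ, ← hP, ← hy]
    simp
  have g3 : rectPlu k w (e + 1) (f + 1)
      = (-1) ^ e * br y (P ++ p :: (p + 1) :: (p + f + 3 + e) :: C) := by
    have := mv1 (P ++ [p, p + 1]) (p + f + 3 + e) (by simp [lP])
    rw [rectPlu_eq (by omega), rl, k1, show p + 1 + 1 + (f + 1) = p + f + 3 by ring,
      r2, List.range_succ, List.range_succ, ← hP, ← hy]
    simpa using this
  have g4 : rectPlu k w (e + 3) (f + 2)
      = br y (P ++ (p + f + 2) :: (p + f + 3 + e) :: (p + f + 3 + e + 1) :: C) := by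
    have := mv2 (P ++ [p + f + 2]) (p + f + 3 + e) (p + f + 3 + e + 1) (by simp [lP])
    rw [rectPlu_eq (by omega), rl, k3, List.range'_succ, show p + (f + 2) = p + f + 2 by ring,
      r3, ← hP, ← hy]
    simpa using this
  have g5 : rectPlu k w (e + 2) (f + 2)
      = br y (P ++ p :: (p + f + 3 + e) :: (p + f + 3 + e + 1) :: C) := by
    have := mv2 (P ++ [p]) (p + f + 3 + e) (p + f + 3 + e + 1) (by simp [lP])
    rw [rectPlu_eq (by omega), rl, k2, show p + 1 + (f + 2) = p + f + 3 by ring,
      r3, List.range_succ, ← hP, ← hy]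
    simpa using this
  have g6 : rectPlu k w (e + 3) (f + 1)
      = (-1) ^ e * br y (P ++ (p + f + 1) :: (p + f + 2) :: (p + f + 3 + e) :: C) := by
    have := mv1 (P ++ [p + f + 1, p + f + 2]) (p + f + 3 + e) (by simp [lP])
    rw [rectPlu_eq (by omega), rl, k3, List.range'_succ, List.range'_succ,
      show p + (f + 1) = p + f + 1 by ring, r2, ← hP, ← hy]
    simpa using this
  have g7 : rectPlu k w (e + 1) f = br y (P ++ p :: (p + 1) :: (p + f + 2) :: C) := by
    rw [rectPlu_eq (by omega), rl, k1, r1, show p + 1 + 1 + f = p + f + 2 by ring,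
      ← hC, List.range_succ, List.range_succ, ← hP, ← hy]
    simp
  have H := br_hex y P C (by omega) p (p + 1) (p + f + 1) (p + f + 2) (p + f + 3 + e)
    (p + f + 3 + e + 1)
  refine ⟨br y (P ++ p :: (p + 1) :: (p + f + 2) :: C)
      * br y (P ++ (p + f + 1) :: (p + f + 3 + e) :: (p + f + 3 + e + 1) :: C)
    - br y (P ++ p :: (p + 1) :: (p + f + 1) :: C)
      * br y (P ++ (p + f + 2) :: (p + f + 3 + e) :: (p + f + 3 + e + 1) :: C), ?_, ?_⟩
  · rw [g1, g2, g3, g4, g5, g6, g7]
    linear_combination (-1) ^ e * H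
  · intro h
    let g : ℕ → ℕ := fun x => if x = p + f + 3 + e then p else if x = p + f + 1 then p + 1 else x
    have mP : ∀ x ∈ P, x < p := by simp [hP]
    have mC : ∀ x ∈ C, p + f + 3 ≤ x ∧ x < p + f + 3 + e := by
      intro x hx; rwa [hC, List.mem_range'_1] at hx
    have nP : P.Nodup := hP ▸ List.nodup_range
    have nC : C.Nodup := hC ▸ List.nodup_range' 1
    have gP : P.map g = P := by
      conv_rhs => rw [← List.map_id P]
      refine List.map_congr_left fun x hx => ?_
      have := mP x hx
      simp only [g, id]; rw [if_neg (by omega), if_neg (by omega)]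
    have gC : C.map g = C := by
      conv_rhs => rw [← List.map_id C]
      refine List.map_congr_left fun x hx => ?_
      have := mC x hx
      simp only [g, id]; rw [if_neg (by omega), if_neg (by omega)]
    have bd : ∀ a b c, a < w + k + 1 → b < w + k + 1 → c < w + k + 1 →
        ∀ x ∈ P ++ a :: b :: c :: C, x < w + k + 1 := by
      intro a b c ha hb hc x hx
      simp only [List.mem_append, List.mem_cons] at hx
      rcases hx with hx | rfl | rfl | rfl | hx
      · have := mP x hx; omega
      · exact ha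
      · exact hb
      · exact hc
      · have := mC x hx; omega
    have key : ∀ a b c, a < w + k + 1 → b < w + k + 1 → c < w + k + 1 →
        sub (w := w) (fun x => y (g x)) (br y (P ++ a :: b :: c :: C))
          = br y (P ++ g a :: g b :: g c :: C) := by
      intro a b c ha hb hc
      conv_lhs => rw [hy]
      rw [sub_br _ _ (by simp; omega) (bd a b c ha hb hc), ← hy, br_map _ _ _ (by simp; omega)]
      simp [gP, gC]
    have h2 := map_dvd (sub (w := w) fun x => y (g x)) h
    rw [g1, map_mul, map_sub, map_mul, map_mul, key _ _ _ (by omega) (by omega) (by omega),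
      key _ _ _ (by omega) (by omega) (by omega), key _ _ _ (by omega) (by omega) (by omega),
      key _ _ _ (by omega) (by omega) (by omega)] at h2
    have v1 : g p = p := by simp only [g]; rw [if_neg (by omega), if_neg (by omega)]
    have v2 : g (p + 1) = p + 1 := by
      simp only [g]; rw [if_neg (by omega)]; split_ifs <;> rfl
    have v3 : g (p + f + 1) = p + 1 := by simp only [g]; rw [if_neg (by omega), if_pos trivial]
    have v4 : g (p + f + 2) = p + f + 2 := by
      simp only [g]; rw [if_neg (by omega), if_neg (by omega)]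
    have v5 : g (p + f + 3 + e) = p := by simp [g]
    have v6 : g (p + f + 3 + e + 1) = p + f + 3 + e + 1 := by
      simp only [g]; rw [if_neg (by omega), if_neg (by omega)]
    rw [v1, v2, v3, v4, v5, v6,
      br_dup y (P ++ p :: (p + f + 2) :: p :: C) (by simp; omega) (by simp [List.nodup_append]),
      br_dup y (P ++ p :: (p + 1) :: (p + 1) :: C) (by simp; omega) (by simp [List.nodup_append]),
      mul_zero, zero_mul, sub_zero, zero_dvd_iff, mul_eq_zero, hy] at h2
    have nd : ∀ a b c, a ≠ b → a ≠ c → b ≠ c → p ≤ a → p ≤ b → p ≤ c →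
        (a < p + f + 3 ∨ p + f + 3 + e ≤ a) → (b < p + f + 3 ∨ p + f + 3 + e ≤ b) →
        (c < p + f + 3 ∨ p + f + 3 + e ≤ c) → (P ++ a :: b :: c :: C).Nodup := by
      intro a b c h1 h2 h3 h4 h5 h6 h7 h8 h9
      have na : ∀ x, (x < p + f + 3 ∨ p + f + 3 + e ≤ x) → x ∉ C := by
        intro x hx hc; have := mC x hc; omega
      simp only [List.nodup_append, List.nodup_cons, List.mem_cons, not_or]
      refine ⟨nP, ⟨⟨h1, h2, na a h7⟩, ⟨h3, na b h8⟩, na c h9, nC⟩, ?_⟩
      intro x hx z hz
      have := mP x hx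
      rcases hz with rfl | rfl | rfl | hz
      · omega
      · omega
      · omega
      · have := mC z hz; omega
    rcases h2 with h2 | h2
    · exact (prime_br (by omega) _ (by simp; omega) (by apply nd <;> omega)
        (bd _ _ _ (by omega) (by omega) (by omega))).ne_zero h2
    · exact (prime_br (by omega) _ (by simp; omega) (by apply nd <;> omega)
        (bd _ _ _ (by omega) (by omega) (by omega))).ne_zero h2

lemma exch {v : Vx k w} (hv : Mutable v) :
    ∃ x : Rg k w, ∃ e : ℕ, initX k w v * x = (∏ u, initX k w u ^ (initB k w u v).toNat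
      + ∏ u, initX k w u ^ (-initB k w u v).toNat) * initX k w none ^ e
      ∧ ¬ initX k w v ∣ x := by
  rcases v with _ | ⟨i, j⟩
  · exact hv.elim
  have e1 := prod_three (initX k w) _ _ _ _ _ _ (col_pos hv)
  have e2 := prod_three (initX k w) _ _ _ _ _ _ (col_neg hv)
  obtain ⟨h1, h2⟩ := hv
  rw [initX_vcol (by omega) (by omega), initX_vcol (by omega) (by omega),
    initX_vcol (by omega) (by omega)] at e1 e2
  suffices H : ∃ x : Rg k w, rectPlu k w (i + 1) (j + 1) * x
      = rectPlu k w (i + 1) j * rectPlu k w i (j + 1) * rectPlu k w (i + 2) (j + 2)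
        + rectPlu k w (i + 1) (j + 2) * rectPlu k w (i + 2) (j + 1) * rectPlu k w i j
      ∧ ¬ rectPlu k w (i + 1) (j + 1) ∣ x by
    obtain ⟨x, hx, hd⟩ := H
    exact ⟨x, _, by rw [add_mul, e1, e2]; exact hx, hd⟩
  generalize (i : ℕ) = a at h1
  rcases a with _ | a
  · obtain ⟨p, rfl⟩ : ∃ p, k = p + 2 := ⟨k - 2, by omega⟩
    exact exch_one p j (by omega)
  · exact exch_two (k - a - 3) a j (by omega) (by omega)

open Classical in
theorem regular (hk : 0 < k) {z : Fd k w} (hz : IsClusterVar k w z) :
    z ∈ Den (Fd k w) (∏ v ∈ (Finset.univ.filter Mutable)ᶜ, initX k w v) := by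
  obtain ⟨p, hp, v, rfl⟩ := hz
  have hS := posOf_pos (K := Fd k w) (vand k w)
  have hx : ∀ u, algebraMap (Rg k w) (Fd k w) (initX k w u) ∈ posOf (Fd k w) (vand k w) :=
    fun u => mem_posOf _ (vand_initX u)
  refine starfish (initX k w) _ ?_ ?_
  · refine laurent_mem hS hx initB_skew initB_inv p hp _ (fun u => ⟨alg_mem_Den _ _, ?_⟩) v
    exact inv_mem_Den (Finset.dvd_prod_of_mem _ (Finset.mem_univ u)) (hS.ne (hx u))
  · intro j hj
    have hj : Mutable j := (Finset.mem_filter.mp hj).2
    obtain ⟨x, e, hxe, hnd⟩ := exch hj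
    refine ⟨prime_initX hk j, x * ∏ u ∈ Finset.univ.erase j, initX k w u, ?_, ?_⟩
    · intro h
      rcases (prime_initX hk j).dvd_or_dvd h with h | h
      · exact hnd h
      · obtain ⟨u, hu, h⟩ := ((prime_initX hk j).dvd_finsetProd_iff _).mp h
        rcases j with _ | ⟨a, b⟩
        · exact hj
        · exact initX_not_dvd (Finset.mem_erase.mp hu).1 h
    · rw [← mutate_mutate hS hx initB_skew j, ← run_cons]
      have hd : ∀ u, u ≠ j → (algebraMap (Rg k w) (Fd k w) (initX k w u))⁻¹ ∈
          Den (Fd k w) (x * ∏ u ∈ Finset.univ.erase j, initX k w u) := fun u hu =>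
        inv_mem_Den ((Finset.dvd_prod_of_mem _
          (Finset.mem_erase.mpr ⟨hu, Finset.mem_univ u⟩)).mul_left x) (hS.ne (hx u))
      refine laurent_mem hS (hS.mutX hx _ j) (initB_skew.mutB j) (initB_inv.mutB initB_skew hj)
        (j :: p) (fun i hi => by
          rcases List.mem_cons.mp hi with rfl | hi
          exacts [hj, hp i hi]) _ (fun u => ?_) v
      by_cases hu : u = j
      · subst hu
        have hn : (none : Vx k w) ≠ u := by rintro rfl; exact hj
        have x0 : algebraMap (Rg k w) (Fd k w) x ≠ 0 := fun h => hnd (by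
          rw [IsFractionRing.injective (Rg k w) (Fd k w) (h.trans (map_zero _).symm)]
          exact dvd_zero _)
        have e1 : mutX (fun u => algebraMap (Rg k w) (Fd k w) (initX k w u)) (initB k w) u u
            = algebraMap (Rg k w) (Fd k w) x
              * (algebraMap (Rg k w) (Fd k w) (initX k w none))⁻¹ ^ e := by
          have := congrArg (algebraMap (Rg k w) (Fd k w)) hxe
          simp only [map_mul, map_add, map_prod, map_pow] at this
          have h1 := hS.ne (hx u)
          have h2 := hS.ne (hx none)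
          simp only [mutX, Function.update_self]
          rw [inv_pow]
          field_simp
          rw [← this]
        rw [e1]
        refine ⟨Subring.mul_mem _ (alg_mem_Den _ _) (Subring.pow_mem _ (hd none hn) e), ?_⟩
        rw [mul_inv, inv_pow, inv_inv]
        exact Subring.mul_mem _ (inv_mem_Den (dvd_mul_right _ _) x0)
          (Subring.pow_mem _ (alg_mem_Den _ _) e)
      · simp only [mutX, Function.update_of_ne hu]
        exact ⟨alg_mem_Den _ _, hd u hu⟩

end Pool.Agent.H.MP_03aa11_co
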