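import Pool.Agent.H.MP_03aa11_co.G

/-! Tame friezes, the corresponding matrices and values of rational functions. -/

namespace Pool.Agent.H.MP_03aa11_co

open Finset MvPolynomial Matrix

/-- The adjacent minor of order `r` with top left corner `(i, j)`. -/
def adjMinor (M : ℤ → ℤ → ℚ) (r : ℕ) (i j : ℤ) : ℚ :=
  (Matrix.of fun a b : Fin r => M (i + (a : ℕ)) (j + (b : ℕ))).det

/-- A tame `SL_k`-frieze of width `w` with positive integer values. -/
structure IsFrieze (k w : ℕ) (M : ℤ → ℤ → ℚ) : Prop where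
  sl : ∀ i j : ℤ, adjMinor M k i j = 1
  tame : ∀ i j : ℤ, adjMinor M (k + 1) i j = 0
  one : ∀ i j : ℤ, j - i = -1 ∨ j - i = (w : ℤ) → M i j = 1
  zero : ∀ i j : ℤ, (-(k : ℤ) ≤ j - i ∧ j - i ≤ -2) ∨
    ((w : ℤ) + 1 ≤ j - i ∧ j - i ≤ (w : ℤ) + (k : ℤ) - 1) → M i j = 0
  posInt : ∀ i j : ℤ, 0 ≤ j - i → j - i ≤ (w : ℤ) - 1 → ∃ m : ℕ, 0 < m ∧ M i j = (m : ℚ)

/-- Columns of a `k × n` matrix extended to all integers by `v (c + n) = (-1)^(k-1) v c`. -/
def extCol {k w : ℕ} (A : Matrix (Fin k) (Fin (w + k + 1)) ℚ) (c : ℤ) (r : Fin k) : ℚ :=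
  ((-1 : ℚ) ^ (k - 1)) ^ (c / ((w + k + 1 : ℕ) : ℤ)) *
    A r ⟨(c % ((w + k + 1 : ℕ) : ℤ)).toNat, by
      have h1 := Int.emod_lt_of_pos c (b := ((w + k + 1 : ℕ) : ℤ)) (by omega)
      omega⟩

/-- The matrix `A` corresponds to the frieze `M`: its cyclically consecutive minors are `1` and
`M i j` is the Plücker coordinate on the columns `i-k+1, ..., i-1, j+1`. -/
def Corr (k w : ℕ) (M : ℤ → ℤ → ℚ) (A : Matrix (Fin k) (Fin (w + k + 1)) ℚ) : Prop :=
  (∀ i : ℤ, (Matrix.of fun r s : Fin k => extCol A (i + (s : ℕ)) r).det = 1) ∧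
  ∀ i j : ℤ, M i j = (Matrix.of fun r s : Fin k =>
    if (s : ℕ) + 1 < k then extCol A (i - k + 1 + (s : ℕ)) r else extCol A (j + 1) r).det

/-- The rational function `z` is defined at the matrix `A`, with value `q`. -/
def HasValue {k w : ℕ} (z : Fd k w) (A : Matrix (Fin k) (Fin (w + k + 1)) ℚ) (q : ℚ) : Prop :=
  ∃ P Q : Rg k w, aeval (fun x => A x.1 x.2) Q ≠ 0 ∧
    z = algebraMap (Rg k w) (Fd k w) P / algebraMap (Rg k w) (Fd k w) Q ∧
    q = aeval (fun x => A x.1 x.2) P / aeval (fun x => A x.1 x.2) Q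

lemma det_eq_one_of_rank {m : Type} [Fintype m] [DecidableEq m] (N : Matrix m m ℚ) (b : m → ℤ)
    (hd : ∀ s, N s s = 1) (h : ∀ r s, r ≠ s → b s ≤ b r → N r s = 0) : N.det = 1 := by
  rw [Matrix.det_apply', Finset.sum_eq_single 1]
  · simp [hd]
  · intro σ _ hσ
    by_contra hne
    have h1 : ∀ s, N (σ s) s ≠ 0 := fun s e =>
      hne (mul_eq_zero_of_right _ (Finset.prod_eq_zero (Finset.mem_univ s) e))
    have h2 : ∀ s, σ s ≠ s → b (σ s) < b s := fun s hs =>
      lt_of_not_ge fun e => h1 s (h _ _ hs e)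
    obtain ⟨s, hs⟩ : ∃ s, σ s ≠ s := by
      by_contra hc
      push Not at hc
      exact hσ (Equiv.ext hc)
    have : ∑ s, b (σ s) < ∑ s, b s := by
      refine Finset.sum_lt_sum (fun t _ => ?_) ⟨s, Finset.mem_univ _, h2 s hs⟩
      by_cases ht : σ t = t
      · rw [ht]
      · exact (h2 t ht).le
    rw [Equiv.sum_comp σ b] at this
    exact lt_irrefl _ this
  · simp

lemma rows_span {k : ℕ} (ρ : Fin k → ℤ → ℚ) (η : ℤ → ℚ)
    (h1 : ∀ j : ℤ, (Matrix.of fun a b : Fin k => ρ a (j + (b : ℕ))).det ≠ 0)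
    (h2 : ∀ j : ℤ, ∃ (c0 : ℚ) (c : Fin k → ℚ), ¬ (c0 = 0 ∧ c = 0) ∧
      ∀ b : ℕ, b ≤ k → c0 * η (j + b) + ∑ a, c a * ρ a (j + b) = 0) :
    η ∈ Submodule.span ℚ (Set.range ρ) := by
  have uniq : ∀ (j : ℤ) (c : Fin k → ℚ), (∀ b : Fin k, ∑ a, c a * ρ a (j + (b : ℕ)) = 0) →
      c = 0 := by
    intro j c hc
    refine Matrix.eq_zero_of_vecMul_eq_zero (h1 j) ?_
    funext b
    simpa [Matrix.vecMul, dotProduct] using hc b
  have h3 : ∀ j : ℤ, ∃ d : Fin k → ℚ, ∀ b : ℕ, b ≤ k → η (j + b) = ∑ a, d a * ρ a (j + b) := by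
    intro j
    obtain ⟨c0, c, hne, hc⟩ := h2 j
    have h0 : c0 ≠ 0 := by
      rintro rfl
      exact hne ⟨rfl, uniq j c fun b => by simpa using hc b b.2.le⟩
    refine ⟨fun a => -c a / c0, fun b hb => ?_⟩
    have := hc b hb
    rw [show ∑ a, -c a / c0 * ρ a (j + b) = -(∑ a, c a * ρ a (j + b)) / c0 by
      rw [← Finset.sum_neg_distrib, Finset.sum_div]
      exact Finset.sum_congr rfl fun a _ => by ring]
    field_simp
    linear_combination this
  choose d hd using h3
  have step : ∀ j, d (j + 1) = d j := by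
    intro j
    refine sub_eq_zero.mp (uniq (j + 1) _ fun b => ?_)
    have e1 := hd (j + 1) b b.2.le
    have e2 := hd j (b + 1) b.2
    rw [show j + ((b + 1 : ℕ) : ℤ) = j + 1 + (b : ℕ) by push_cast; ring] at e2
    simp only [Pi.sub_apply, sub_mul, Finset.sum_sub_distrib]
    rw [← e1, ← e2, sub_self]
  have const : ∀ j, d j = d 0 := by
    intro j
    induction j using Int.induction_on with
    | zero => rfl
    | succ t ih => rw [step, ih]
    | pred t ih => rw [← step, sub_add_cancel, ih]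
  rw [Submodule.mem_span_range_iff_exists_fun]
  refine ⟨d 0, ?_⟩
  funext j
  have := hd j 0 (Nat.zero_le _)
  rw [const j] at this
  simpa [Finset.sum_apply] using this.symm

variable {k w : ℕ} {M : ℤ → ℤ → ℚ}

def rowSp (k : ℕ) (M : ℤ → ℤ → ℚ) (i : ℤ) : Submodule ℚ (ℤ → ℚ) :=
  Submodule.span ℚ (Set.range fun a : Fin k => M (i + (a : ℕ)))

lemma IsFrieze.down (h : IsFrieze k w M) (i : ℤ) : M (i + k) ∈ rowSp k M i := by
  refine rows_span _ _ (fun j => by have := h.sl i j; unfold adjMinor at this; simp [this]) ?_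
  intro j
  obtain ⟨v, hv, e⟩ := Matrix.exists_vecMul_eq_zero_iff.mpr (h.tame i j)
  refine ⟨v (Fin.last k), fun a => v a.castSucc, ?_, fun b hb => ?_⟩
  · rintro ⟨h1, h2⟩
    refine hv (funext fun a => Fin.lastCases h1 (fun a => congrFun h2 a) a)
  · have := congrFun e ⟨b, by omega⟩
    simp only [Matrix.vecMul, dotProduct, Matrix.of_apply, Fin.sum_univ_castSucc,
      Fin.val_castSucc, Fin.val_last, Pi.zero_apply] at this
    linear_combination this

lemma IsFrieze.up (h : IsFrieze k w M) (i : ℤ) : M i ∈ rowSp k M (i + 1) := by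
  refine rows_span _ _ (fun j => by
    have := h.sl (i + 1) j; unfold adjMinor at this; simp [this]) ?_
  intro j
  obtain ⟨v, hv, e⟩ := Matrix.exists_vecMul_eq_zero_iff.mpr (h.tame i j)
  refine ⟨v 0, fun a => v a.succ, ?_, fun b hb => ?_⟩
  · rintro ⟨h1, h2⟩
    refine hv (funext fun a => Fin.cases h1 (fun a => congrFun h2 a) a)
  · have := congrFun e ⟨b, by omega⟩
    simp only [Matrix.vecMul, dotProduct, Matrix.of_apply, Fin.sum_univ_succ,
      Fin.val_succ, Fin.val_zero, Pi.zero_apply] at this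
    push_cast at this
    simpa [add_assoc, add_comm (1 : ℤ)] using this

lemma IsFrieze.rowSp_succ (h : IsFrieze k w M) (i : ℤ) : rowSp k M (i + 1) = rowSp k M i := by
  apply le_antisymm
  · refine Submodule.span_le.mpr ?_
    rintro _ ⟨a, rfl⟩
    by_cases ha : (a : ℕ) + 1 < k
    · refine Submodule.subset_span ⟨⟨a + 1, ha⟩, ?_⟩
      simp only; congr 1; push_cast; ring
    · have := a.2
      have e : i + 1 + ((a : ℕ) : ℤ) = i + k := by omega
      simp only [e]
      exact h.down i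
  · refine Submodule.span_le.mpr ?_
    rintro _ ⟨a, rfl⟩
    by_cases ha : (a : ℕ) = 0
    · simp only [ha, Nat.cast_zero, add_zero]
      exact h.up i
    · refine Submodule.subset_span ⟨⟨a - 1, by omega⟩, ?_⟩
      simp only; congr 1; omega

lemma IsFrieze.row_mem (h : IsFrieze k w M) (hk : 0 < k) (i j : ℤ) : M i ∈ rowSp k M j := by
  have const : ∀ j, rowSp k M j = rowSp k M 0 := by
    intro j
    induction j using Int.induction_on with
    | zero => rfl
    | succ t ih => rw [h.rowSp_succ, ih]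
    | pred t ih => rw [← h.rowSp_succ, sub_add_cancel, ih]
  rw [const j, ← const i]
  exact Submodule.subset_span ⟨⟨0, hk⟩, by simp⟩

lemma IsFrieze.corner (h : IsFrieze k w M) (hk : 0 < k) (i : ℤ) :
    M i (i + w + k) = (-1) ^ (k - 1) := by
  obtain ⟨m, rfl⟩ : ∃ m, k = m + 1 := ⟨k - 1, by omega⟩
  have e := h.sl i (i + w + 1)
  rw [adjMinor, Matrix.det_succ_row_zero, Finset.sum_eq_single (Fin.last m),
    det_eq_one_of_rank _ (fun s : Fin m => -((s : ℕ) : ℤ))] at e
  · simp only [Fin.val_last, Matrix.of_apply, Fin.val_zero, Nat.cast_zero, add_zero,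
      mul_one] at e
    rw [show i + w + ((m + 1 : ℕ) : ℤ) = i + w + 1 + m by push_cast; ring, Nat.add_sub_cancel]
    have h2 : ((-1 : ℚ) ^ m) * (-1) ^ m = 1 := by rw [← mul_pow]; simp
    linear_combination (-1) ^ m * e - M i (i + w + 1 + m) * h2
  · intro s
    simp only [Matrix.submatrix_apply, Fin.succAbove_last, Matrix.of_apply, Fin.val_succ,
      Fin.val_castSucc]
    exact h.one _ _ (Or.inr (by push_cast; ring))
  · intro r s hrs hb
    have : (r : ℕ) ≠ s := fun e => hrs (Fin.ext e)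
    have := s.2
    simp only [Matrix.submatrix_apply, Fin.succAbove_last, Matrix.of_apply, Fin.val_succ,
      Fin.val_castSucc]
    exact h.zero _ _ (Or.inr (by omega))
  · intro s _ hs
    have : (s : ℕ) ≠ m := fun e => hs (Fin.ext e)
    have := s.2
    simp only [Matrix.of_apply, Fin.val_zero]
    rw [h.zero _ _ (Or.inr (by omega))]; simp
  · simp

lemma IsFrieze.period (h : IsFrieze k w M) (hk : 0 < k) (i j : ℤ) :
    M i (j + (w + k + 1 : ℕ)) = (-1) ^ (k - 1) * M i j := by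
  have := h.row_mem hk i (j + 1)
  generalize M i = η at this
  induction this using Submodule.span_induction with
  | mem η hη =>
    obtain ⟨a, rfl⟩ := hη
    have := a.2
    by_cases ha : (a : ℕ) = 0
    · simp only [ha, Nat.cast_zero, add_zero]
      rw [h.one (j + 1) j (Or.inl (by ring)), mul_one, ← h.corner hk (j + 1)]
      congr 1; push_cast; ring
    · simp only
      rw [h.zero _ _ (Or.inr (by omega)), h.zero _ _ (Or.inl (by omega)), mul_zero]
  | zero => simp
  | add a b _ _ ha hb => simp only [Pi.add_apply, ha, hb]; ring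
  | smul c a _ ha => simp only [Pi.smul_apply, ha, smul_eq_mul]; ring

lemma IsFrieze.period_z (h : IsFrieze k w M) (hk : 0 < k) (i j t : ℤ) :
    M i (j + (w + k + 1 : ℕ) * t) = ((-1 : ℚ) ^ (k - 1)) ^ t * M i j := by
  have h0 : ((-1 : ℚ) ^ (k - 1)) ≠ 0 := by simp
  induction t using Int.induction_on with
  | zero => simp
  | succ t ih => rw [mul_add, mul_one, ← add_assoc, h.period hk, ih, zpow_add_one₀ h0]; ring
  | pred t ih =>
    apply mul_left_cancel₀ h0
    rw [← h.period hk, zpow_sub_one₀ h0, show j + ((w + k + 1 : ℕ) : ℤ) * (-(t : ℤ) - 1)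
      + (w + k + 1 : ℕ) = j + (w + k + 1 : ℕ) * -(t : ℤ) by ring, ih]
    field_simp

/-- Rows `0, ..., k-1` and columns `-1, ..., n-2` of the frieze. -/
def rowsMat (k w : ℕ) (M : ℤ → ℤ → ℚ) : Matrix (Fin k) (Fin (w + k + 1)) ℚ :=
  fun r c => M (r : ℕ) (((c : ℕ) : ℤ) - 1)

lemma IsFrieze.ext_rows (h : IsFrieze k w M) (hk : 0 < k) (c : ℤ) (r : Fin k) :
    extCol (rowsMat k w M) c r = M (r : ℕ) (c - 1) := by
  simp only [extCol, rowsMat]
  rw [← h.period_z hk, Int.toNat_of_nonneg (Int.emod_nonneg _ (by omega))]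
  congr 1
  have := Int.emod_add_mul_ediv c ((w + k + 1 : ℕ) : ℤ)
  linear_combination this

lemma upd_last {m : ℕ} (v : ℤ → Fin (m + 1) → ℚ) (i : ℤ) (x : Fin (m + 1) → ℚ) :
    (Matrix.of fun r s : Fin (m + 1) => if (s : ℕ) + 1 < m + 1 then v (i + (s : ℕ)) r else x r)
      = (Matrix.of fun r s : Fin (m + 1) => v (i + (s : ℕ)) r).updateCol (Fin.last m) x := by
  ext r s
  refine Fin.lastCases ?_ (fun s => ?_) s
  · simp
  · rw [Matrix.updateCol_ne (Fin.castSucc_ne_last s)]; simp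

lemma IsFrieze.corr (h : IsFrieze k w M) (hk : 0 < k) : Corr k w M (rowsMat k w M) := by
  have h1 : ∀ i : ℤ, (Matrix.of fun r s : Fin k =>
      extCol (rowsMat k w M) (i + (s : ℕ)) r).det = 1 := by
    intro i
    rw [← h.sl 0 (i - 1), adjMinor]
    congr 1; ext r s
    simp only [Matrix.of_apply, h.ext_rows hk, zero_add]; congr 1; ring
  refine ⟨h1, fun i j => ?_⟩
  obtain ⟨d, hd⟩ := (Submodule.mem_span_range_iff_exists_fun ℚ).mp (h.row_mem hk i 0)
  obtain ⟨m, rfl⟩ : ∃ m, k = m + 1 := ⟨k - 1, by omega⟩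
  have hd' : ∀ c, d ⬝ᵥ extCol (rowsMat (m + 1) w M) c = M i (c - 1) := by
    intro c
    rw [← hd]
    simp [dotProduct, h.ext_rows hk, Finset.sum_apply]
  rw [upd_last, ← Matrix.cramer_apply]
  obtain ⟨B, hB⟩ : ∃ B, B = Matrix.of fun r s : Fin (m + 1) =>
    extCol (rowsMat (m + 1) w M) (i - (m + 1 : ℕ) + 1 + (s : ℕ)) r := ⟨_, rfl⟩
  have e := Matrix.mulVec_cramer B (extCol (rowsMat (m + 1) w M) (j + 1))
  rw [show B.det = 1 from hB ▸ h1 _, one_smul] at e
  have e2 : d ᵥ* B = Pi.single (Fin.last m) 1 := by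
    funext s
    have : (d ᵥ* B) s = M i (i - (m + 1 : ℕ) + 1 + (s : ℕ) - 1) := by
      rw [← hd', hB]; rfl
    rw [this]
    refine Fin.lastCases ?_ (fun s => ?_) s
    · rw [Pi.single_eq_same]
      exact h.one _ _ (Or.inl (by simp; ring))
    · have := s.2
      rw [Pi.single_eq_of_ne (Fin.castSucc_ne_last s)]
      exact h.zero _ _ (Or.inl (by simp only [Fin.val_castSucc]; omega))
  have e3 := hd' (j + 1)
  rw [← e, Matrix.dotProduct_mulVec, e2, single_dotProduct, one_mul, add_sub_cancel_right] at e3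
  rw [← hB, e3]

end Pool.Agent.H.MP_03aa11_co
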