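import Pool.Agent.H.MP_03aa11_co.J

/-! Integrality of the values. -/

namespace Pool.Agent.H.MP_03aa11_co

open Finset MvPolynomial Matrix

lemma run_mem_subfield {V F : Type} [Fintype V] [DecidableEq V] [Field F] (T : Subfield F)
    (p : List V) {s : (V → F) × (V → V → ℤ)} (hx : ∀ v, s.1 v ∈ T) : ∀ v, (run s p).1 v ∈ T := by
  induction p generalizing s with
  | nil => exact hx
  | cons j p ih =>
    rw [run_cons]
    refine ih fun v => ?_
    simp only [mutate, mutX]
    by_cases hv : v = j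
    · subst hv
      rw [Function.update_self]
      exact T.div_mem (T.add_mem (T.prod_mem fun u _ => T.pow_mem (hx u) _)
        (T.prod_mem fun u _ => T.pow_mem (hx u) _)) (hx v)
    · rw [Function.update_of_ne hv]; exact hx v

/-- Quotients of elements on which two ring maps agree. -/
def eqField {R K R' : Type} [CommRing R] [IsDomain R] [Field K] [Algebra R K] [IsFractionRing R K]
    [CommRing R'] (τ ι : R →+* R') : Subfield K where
  carrier := {z | ∃ P Q : R, Q ≠ 0 ∧ τ P = ι P ∧ τ Q = ι Q ∧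
    z = algebraMap R K P / algebraMap R K Q}
  zero_mem' := ⟨0, 1, one_ne_zero, by simp, by simp, by simp⟩
  one_mem' := ⟨1, 1, one_ne_zero, by simp, by simp, by simp⟩
  add_mem' := by
    rintro _ _ ⟨a, b, hb, h1, h2, rfl⟩ ⟨c, d, hd, h3, h4, rfl⟩
    refine ⟨a * d + b * c, b * d, mul_ne_zero hb hd, by simp [h1, h2, h3, h4],
      by simp [h2, h4], ?_⟩
    rw [div_add_div _ _ (by simpa using hb) (by simpa using hd)]; simp
  mul_mem' := by
    rintro _ _ ⟨a, b, hb, h1, h2, rfl⟩ ⟨c, d, hd, h3, h4, rfl⟩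
    refine ⟨a * c, b * d, mul_ne_zero hb hd, by simp [h1, h3], by simp [h2, h4], ?_⟩
    rw [div_mul_div_comm]; simp
  neg_mem' := by
    rintro _ ⟨a, b, hb, h1, h2, rfl⟩
    exact ⟨-a, b, hb, by simp [h1], h2, by simp [neg_div]⟩
  inv_mem' := by
    rintro _ ⟨a, b, hb, h1, h2, rfl⟩
    by_cases ha : a = 0
    · exact ⟨0, 1, one_ne_zero, by simp, by simp, by simp [ha]⟩
    · exact ⟨b, a, ha, h2, h1, by rw [inv_div]⟩

variable {k w : ℕ} {M : ℤ → ℤ → ℚ}

noncomputable def evQ (A : Matrix (Fin k) (Fin (w + k + 1)) ℚ) : Rg k w →+* ℚ :=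
  (aeval fun x : Fin k × Fin (w + k + 1) => A x.1 x.2).toRingHom

lemma extCol_fin (A : Matrix (Fin k) (Fin (w + k + 1)) ℚ) (c : Fin (w + k + 1)) (r : Fin k) :
    extCol A ((c : ℕ) : ℤ) r = A r c := by
  have h1 : ((c : ℕ) : ℤ) / ((w + k + 1 : ℕ) : ℤ) = 0 :=
    Int.ediv_eq_zero_of_lt (by omega) (by have := c.2; omega)
  have h2 : ((c : ℕ) : ℤ) % ((w + k + 1 : ℕ) : ℤ) = (c : ℕ) :=
    Int.emod_eq_of_lt (by omega) (by have := c.2; omega)
  simp only [extCol, h1, h2, zpow_zero, one_mul, Int.toNat_natCast]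

lemma exists_g (hk : 0 < k) (h : IsFrieze k w M) {A : Matrix (Fin k) (Fin (w + k + 1)) ℚ}
    (hA : Corr k w M A) : ∃ g : Matrix (Fin k) (Fin k) ℚ, g.det = 1 ∧ rowsMat k w M = g * A := by
  obtain ⟨m, rfl⟩ : ∃ m, k = m + 1 := ⟨k - 1, by omega⟩
  let lam : Fin (m + 1) → ((Fin (m + 1) → ℚ) →ₗ[ℚ] ℚ) := fun r =>
    (LinearMap.proj (Fin.last m)).comp (Matrix.cramer (Matrix.of fun a s : Fin (m + 1) =>
      extCol A (((r : ℕ) : ℤ) - (m + 1 : ℕ) + 1 + (s : ℕ)) a))
  obtain ⟨g, hg⟩ : ∃ g, g = LinearMap.toMatrix' (LinearMap.pi lam) := ⟨_, rfl⟩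
  have h1 : rowsMat (m + 1) w M = g * A := by
    ext r c
    have e : (g * A) r c = (g *ᵥ fun a => A a c) r := rfl
    rw [e, hg, LinearMap.toMatrix'_mulVec, rowsMat, hA.2, upd_last, ← Matrix.cramer_apply,
      sub_add_cancel]
    simp only [LinearMap.pi_apply, lam, LinearMap.comp_apply, LinearMap.proj_apply]
    rw [show extCol A ((c : ℕ) : ℤ) = fun a => A a c from funext fun a => extCol_fin A c a]
  refine ⟨g, ?_, h1⟩
  let e : Fin (m + 1) → Fin (w + (m + 1) + 1) := fun s => ⟨s, by omega⟩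
  have h2 : (rowsMat (m + 1) w M).submatrix id e = g * A.submatrix id e := by
    rw [h1]; rfl
  have h3 : (A.submatrix id e).det = 1 := by
    rw [← hA.1 0]; congr 1; ext r s
    simp only [Matrix.submatrix_apply, id, Matrix.of_apply, zero_add]
    exact (extCol_fin A (e s) r).symm
  have h4 : ((rowsMat (m + 1) w M).submatrix id e).det = 1 := by
    rw [← h.sl 0 (-1), adjMinor]; congr 1; ext r s
    simp only [Matrix.submatrix_apply, id, Matrix.of_apply, zero_add, rowsMat, e]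
    rw [sub_eq_neg_add]
  rw [h2, Matrix.det_mul, h3, mul_one] at h4
  exact h4

lemma evQ_rect (A : Matrix (Fin k) (Fin (w + k + 1)) ℚ) {i j : ℕ} (hj : j ≤ w + 1) :
    evQ A (rectPlu k w i j) = (Matrix.of fun r s : Fin k =>
      A r ⟨if (s : ℕ) + i < k then s else s + j, by split_ifs <;> omega⟩).det := by
  rw [rectPlu, RingHom.map_det]
  congr 1; ext r s
  simp only [RingHom.mapMatrix_apply, Matrix.map_apply, Matrix.of_apply, gcol]
  rw [dif_pos (by split_ifs <;> omega)]
  simp [evQ]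

lemma frozen_one (h : IsFrieze k w M) {v : Vx k w} (hv : ¬ Mutable v) :
    evQ (rowsMat k w M) (initX k w v) = 1 := by
  have top : ∀ i j : ℕ, j ≤ w + 1 → (i = k ∨ j = 0) →
      evQ (rowsMat k w M) (rectPlu k w i j) = 1 := by
    intro i j hj hi
    rw [evQ_rect _ hj, ← h.sl 0 (j - 1), adjMinor]
    congr 1; ext r s
    simp only [Matrix.of_apply, rowsMat, zero_add]
    congr 1
    split_ifs <;> omega
  rcases v with _ | ⟨i, j⟩
  · exact top 0 0 (by omega) (Or.inr rfl)
  · have hi := i.2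
    have hj := j.2
    simp only [Mutable] at hv
    by_cases h1 : (i : ℕ) + 1 = k
    · exact top _ _ (by omega) (Or.inl h1)
    · have h2 : (j : ℕ) = w := by omega
      simp only [initX]
      rw [evQ_rect _ (by omega)]
      refine det_eq_one_of_rank _
        (fun s : Fin k => if (s : ℕ) + (i + 1) < k then ((s : ℕ) : ℤ) else -((s : ℕ) : ℤ)) ?_ ?_
      · intro s
        simp only [Matrix.of_apply, rowsMat]
        refine h.one _ _ ?_
        split_ifs <;> omega
      · intro r s hrs hb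
        have h3 : (r : ℕ) ≠ s := fun e => hrs (Fin.ext e)
        have := r.2
        have := s.2
        simp only [Matrix.of_apply, rowsMat]
        refine h.zero _ _ ?_
        split_ifs at hb ⊢ <;> omega

lemma rows_int (h : IsFrieze k w M) (f : Rg k w) : ∃ m : ℤ, evQ (rowsMat k w M) f = m := by
  have : ∀ x : Fin k × Fin (w + k + 1), ∃ m : ℤ, rowsMat k w M x.1 x.2 = m := by
    rintro ⟨r, c⟩
    have := r.2
    have := c.2
    simp only [rowsMat]
    by_cases h1 : ((c : ℕ) : ℤ) - 1 - (r : ℕ) = -1 ∨ ((c : ℕ) : ℤ) - 1 - (r : ℕ) = w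
    · exact ⟨1, by rw [h.one _ _ h1]; simp⟩
    · by_cases h2 : 0 ≤ ((c : ℕ) : ℤ) - 1 - (r : ℕ) ∧ ((c : ℕ) : ℤ) - 1 - (r : ℕ) ≤ (w : ℤ) - 1
      · obtain ⟨m, -, hm⟩ := h.posInt _ _ h2.1 h2.2
        exact ⟨m, by rw [hm]; simp⟩
      · exact ⟨0, by rw [h.zero _ _ (by omega)]; simp⟩
  choose Z hZ using this
  have e : evQ (rowsMat k w M) = (Int.castRingHom ℚ).comp (eval Z) := by
    apply MvPolynomial.ringHom_ext
    · intro a; simp [evQ]
    · intro x; simp [evQ, hZ]
  exact ⟨eval Z f, by rw [e]; rfl⟩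

lemma value_unique {z : Fd k w} {A : Matrix (Fin k) (Fin (w + k + 1)) ℚ} {q q' : ℚ}
    (h : HasValue z A q) (h' : HasValue z A q') : q = q' := by
  obtain ⟨P, Q, hQ, e, rfl⟩ := h
  obtain ⟨P', Q', hQ', e', rfl⟩ := h'
  have n1 : Q ≠ 0 := by rintro rfl; simp at hQ
  have n2 : Q' ≠ 0 := by rintro rfl; simp at hQ'
  rw [e, div_eq_div_iff (by simpa using n1) (by simpa using n2), ← map_mul, ← map_mul] at e'
  have := congrArg (aeval fun x : Fin k × Fin (w + k + 1) => A x.1 x.2)
    (IsFractionRing.injective (Rg k w) (Fd k w) e')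
  rw [map_mul, map_mul] at this
  rw [div_eq_div_iff hQ hQ', this]

theorem integral (hk : 0 < k) (h : IsFrieze k w M) {A : Matrix (Fin k) (Fin (w + k + 1)) ℚ}
    (hA : Corr k w M A) {z : Fd k w} (hz : IsClusterVar k w z) : ∃ m : ℤ, HasValue z A m := by
  classical
  obtain ⟨g, hg, hgA⟩ := exists_g hk h hA
  obtain ⟨N, f, hf⟩ := regular hk hz
  obtain ⟨D, hD⟩ : ∃ D, D = ∏ v ∈ (Finset.univ.filter Mutable)ᶜ, initX k w v := ⟨_, rfl⟩
  let ι : Rg k w →+* MvPolynomial (Fin k × Fin (w + k + 1)) ℚ :=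
    MvPolynomial.map (Int.castRingHom ℚ)
  let τ : Rg k w →+* MvPolynomial (Fin k × Fin (w + k + 1)) ℚ :=
    (aeval fun x : Fin k × Fin (w + k + 1) =>
      ∑ s, (C (g x.1 s) : MvPolynomial (Fin k × Fin (w + k + 1)) ℚ) * X (s, x.2)).toRingHom
  have hι : Function.Injective ι := map_injective _ Int.cast_injective
  have hcol : ∀ c r, τ (gcol k w c r) = ∑ s, C (g r s) * ι (gcol k w c s) := by
    intro c r
    unfold gcol
    split_ifs
    · simp [τ, ι]
    · simp
  have hrect : ∀ i j, τ (rectPlu k w i j) = ι (rectPlu k w i j) := by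
    intro i j
    have : τ.mapMatrix (Matrix.of fun r s : Fin k =>
        gcol k w (if (s : ℕ) + i < k then s else s + j) r)
        = (C : ℚ →+* _).mapMatrix g * ι.mapMatrix (Matrix.of fun r s : Fin k =>
          gcol k w (if (s : ℕ) + i < k then s else s + j) r) := by
      ext1 r s
      simp only [RingHom.mapMatrix_apply, Matrix.map_apply, Matrix.of_apply, Matrix.mul_apply,
        hcol]
    rw [rectPlu, RingHom.map_det, RingHom.map_det, this, Matrix.det_mul, ← RingHom.map_det, hg,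
      map_one, one_mul]
  have hX : ∀ v, τ (initX k w v) = ι (initX k w v) := by
    rintro (_ | ⟨i, j⟩) <;> exact hrect _ _
  have hDτ : τ D = ι D := by rw [hD]; simp only [map_prod, hX]
  have hzK : z ∈ eqField (K := Fd k w) τ ι := by
    obtain ⟨p, -, v, rfl⟩ := hz
    refine run_mem_subfield (eqField (K := Fd k w) τ ι) p (fun u => ?_) v
    exact ⟨_, 1, one_ne_zero, hX u, by simp, by simp⟩
  obtain ⟨P, Q, hQ, h1, h2, e⟩ := hzK
  rw [← hD] at hf
  have e1 : f * Q = P * D ^ N := by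
    apply IsFractionRing.injective (Rg k w) (Fd k w)
    have : algebraMap (Rg k w) (Fd k w) Q ≠ 0 := by simpa using hQ
    simp only [map_mul, map_pow, ← hf, e]
    field_simp
  have e2 : τ f = ι f := by
    apply mul_right_cancel₀ (b := ι Q) (fun h0 => hQ (hι (by simpa using h0)))
    rw [← map_mul, e1, ← h2, ← map_mul, e1]
    simp only [map_mul, map_pow, h1, hDτ]
  let ev : MvPolynomial (Fin k × Fin (w + k + 1)) ℚ →+* ℚ := eval fun x => A x.1 x.2
  have c1 : ev.comp ι = evQ A := by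
    apply MvPolynomial.ringHom_ext
    · intro a; simp [evQ, ev, ι]
    · intro x; simp [evQ, ev, ι]
  have c2 : ev.comp τ = evQ (rowsMat k w M) := by
    apply MvPolynomial.ringHom_ext
    · intro a; simp [evQ, ev, τ]
    · intro x; simp [evQ, ev, τ, hgA, Matrix.mul_apply]
  have tr : ∀ a, τ a = ι a → evQ A a = evQ (rowsMat k w M) a := by
    intro a ha
    rw [← c1, ← c2, RingHom.comp_apply, RingHom.comp_apply, ha]
  have d1 : evQ A D = 1 := by
    rw [tr D hDτ, hD, map_prod]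
    exact Finset.prod_eq_one fun v hv => frozen_one h (by simpa using hv)
  obtain ⟨m, hm⟩ := rows_int h f
  rw [← tr f e2] at hm
  have d2 : evQ A (D ^ N) = 1 := by rw [map_pow, d1, one_pow]
  have d0 : D ≠ 0 := by rintro rfl; simp at d1
  refine ⟨m, f, D ^ N, ?_, ?_, ?_⟩
  · exact fun h0 => one_ne_zero (d2.symm.trans h0)
  · rw [eq_div_iff (by simpa using fun h0 => absurd h0 d0), map_pow, hf]
  · show (m : ℚ) = evQ A f / evQ A (D ^ N)
    rw [d2, hm, div_one]

end Pool.Agent.H.MP_03aa11_co
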